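import Pool.Agent.Brc.Defs

set_option autoImplicit false

/-!
# The average of the local factors
-/

open Finset Filter Topology

namespace Pool.Agent.Brc

/-- the upper bound of the cube of the local factor -/
noncomputable def avE (d : ℕ) : ℝ := ∏ l ∈ d.primeFactors, (1 + 126 / (l : ℝ))

theorem avE_one_le (d : ℕ) : 1 ≤ avE d := by
  unfold avE
  refine Finset.prod_induction _ (fun x : ℝ => 1 ≤ x) (fun a b ha hb => ?_) le_rfl (fun l _ => ?_)
  · nlinarith
  · have : (0 : ℝ) ≤ 126 / (l : ℝ) := by positivity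
    linarith

theorem av_F_nonneg (d : ℕ) : 0 ≤ F d := by
  unfold F
  exact Finset.prod_nonneg fun l _ => by positivity

theorem av_F_cube (d : ℕ) : F d ^ 3 ≤ avE d := by
  unfold F avE
  rw [← Finset.prod_pow]
  refine Finset.prod_le_prod (fun l _ => by positivity) (fun l hl => ?_)
  have h2 : (2 : ℝ) ≤ l := by exact_mod_cast (Nat.prime_of_mem_primeFactors hl).two_le
  have hy : (0 : ℝ) < 1 / (l : ℝ) := by positivity
  have hy2 : (1 : ℝ) / (l : ℝ) ≤ 1 / 2 := one_div_le_one_div_of_le (by norm_num) h2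
  have e1 : (6 : ℝ) / l = 6 * (1 / (l : ℝ)) := by ring
  have e2 : (126 : ℝ) / l = 126 * (1 / (l : ℝ)) := by ring
  rw [e1, e2]
  set y := 1 / (l : ℝ)
  nlinarith [mul_nonneg hy.le (sub_nonneg.2 hy2), mul_nonneg (mul_nonneg hy.le hy.le) (sub_nonneg.2 hy2)]

theorem av_amgm {x y z : ℝ} (hx : 0 ≤ x) (hy : 0 ≤ y) (hz : 0 ≤ z) : x * y * z ≤ x ^ 3 + y ^ 3 + z ^ 3 := by
  have h : 0 ≤ (x + y + z) * ((x - y) ^ 2 + (y - z) ^ 2 + (z - x) ^ 2) := by positivity
  have h1 : (x + y + z) * ((x - y) ^ 2 + (y - z) ^ 2 + (z - x) ^ 2) = 2 * (x ^ 3 + y ^ 3 + z ^ 3 - 3 * (x * y * z)) := by ring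
  have h2 : 0 ≤ x * y * z := by positivity
  rw [h1] at h
  linarith

theorem avE_mul {g e : ℕ} (hg : g ≠ 0) (he : e ≠ 0) : avE (g * e) ≤ avE g * avE e := by
  unfold avE
  rw [Nat.primeFactors_mul hg he, ← Finset.prod_union_inter]
  refine le_mul_of_one_le_right ?_ ?_
  · exact Finset.prod_nonneg fun l _ => by positivity
  · refine Finset.prod_induction _ (fun x : ℝ => 1 ≤ x) (fun a b ha hb => ?_) le_rfl (fun l _ => ?_)
    · nlinarith
    · have : (0 : ℝ) ≤ 126 / (l : ℝ) := by positivity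
      linarith

theorem avE_sqrt : ∃ C : ℝ, 0 ≤ C ∧ ∀ g : ℕ, 1 ≤ g → avE g ≤ C * Real.sqrt g := by
  refine ⟨64 ^ 32, by positivity, fun g hg => ?_⟩
  have h1 : avE g ≤ ∏ l ∈ g.primeFactors, (Real.sqrt l * (if l < 32 then 64 else 1)) := by
    unfold avE
    refine Finset.prod_le_prod (fun l _ => by positivity) (fun l hl => ?_)
    have h2 : (2 : ℝ) ≤ l := by exact_mod_cast (Nat.prime_of_mem_primeFactors hl).two_le
    split_ifs with h
    · have h3 : 1 ≤ Real.sqrt l := by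
        rw [Real.one_le_sqrt]; linarith
      have h4 : (126 : ℝ) / l ≤ 63 := by
        rw [div_le_iff₀ (by linarith)]; linarith
      nlinarith
    · have h3 : (32 : ℝ) ≤ l := by exact_mod_cast not_lt.1 h
      rw [mul_one]
      refine Real.le_sqrt_of_sq_le ?_
      have h4 : (126 : ℝ) / l ≤ 126 / 32 := div_le_div_of_nonneg_left (by norm_num) (by norm_num) h3
      have h5 : (0 : ℝ) ≤ 126 / l := by positivity
      nlinarith
  refine h1.trans ?_
  rw [Finset.prod_mul_distrib, mul_comm]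
  have h2 : ∏ l ∈ g.primeFactors, (if l < 32 then (64 : ℝ) else 1) ≤ 64 ^ 32 := by
    rw [← Finset.prod_filter, Finset.prod_const]
    refine pow_le_pow_right₀ (by norm_num) ?_
    calc (g.primeFactors.filter (fun l => l < 32)).card ≤ (Finset.range 32).card := by
          refine Finset.card_le_card (fun l hl => ?_)
          rw [Finset.mem_filter] at hl
          exact Finset.mem_range.2 hl.2
      _ = 32 := Finset.card_range 32
  have h3 : ∏ l ∈ g.primeFactors, Real.sqrt (l : ℝ) ≤ Real.sqrt g := by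
    have h4 : ∏ l ∈ g.primeFactors, Real.sqrt (l : ℝ) = Real.sqrt ((∏ l ∈ g.primeFactors, l : ℕ) : ℝ) := by
      push_cast
      rw [Real.sqrt_prod _ (fun i _ => Nat.cast_nonneg i)]
    rw [h4]
    refine Real.sqrt_le_sqrt ?_
    exact_mod_cast Nat.le_of_dvd (by omega) (Nat.prod_primeFactors_dvd g)
  exact mul_le_mul h2 h3 (Finset.prod_nonneg fun l _ => Real.sqrt_nonneg _) (by positivity)

theorem avE_mean : ∃ C : ℝ, 0 ≤ C ∧ ∀ x : ℕ, ∑ e ∈ Icc 1 x, avE e ≤ C * x := by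
  have hs : Summable fun l : ℕ => 126 / (l : ℝ) ^ 2 := by
    have h1 := (Real.summable_one_div_nat_pow (p := 2)).2 (by norm_num)
    exact (h1.mul_left 126).congr (fun l => by ring)
  refine ⟨Real.exp (∑' l : ℕ, 126 / (l : ℝ) ^ 2), (Real.exp_pos _).le, fun x => ?_⟩
  classical
  let P : Finset ℕ := (Icc 1 x).filter Nat.Prime
  have h1 : ∀ e ∈ Icc 1 x, avE e = ∑ t ∈ P.powerset, if t ⊆ e.primeFactors then ∏ l ∈ t, (126 / (l : ℝ)) else 0 := by
    intro e he
    rw [mem_Icc] at he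
    unfold avE
    rw [Finset.prod_one_add, ← Finset.sum_filter]
    refine Finset.sum_congr ?_ (fun _ _ => rfl)
    ext t
    rw [mem_filter, mem_powerset, mem_powerset]
    refine ⟨fun h => ⟨fun l hl => ?_, h⟩, fun h => h.2⟩
    have h2 := h hl
    rw [Nat.mem_primeFactors] at h2
    exact mem_filter.2 ⟨mem_Icc.2 ⟨h2.1.one_le, (Nat.le_of_dvd (by omega) h2.2.1).trans he.2⟩, h2.1⟩
  rw [Finset.sum_congr rfl h1, Finset.sum_comm]
  have h2 : ∀ t ∈ P.powerset, (∑ e ∈ Icc 1 x, if t ⊆ e.primeFactors then ∏ l ∈ t, (126 / (l : ℝ)) else 0) ≤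
      (x : ℝ) * ∏ l ∈ t, (126 / (l : ℝ) ^ 2) := by
    intro t ht
    rw [mem_powerset] at ht
    rw [← Finset.sum_filter, Finset.sum_const, nsmul_eq_mul]
    have hp : ∀ l ∈ t, Nat.Prime l := fun l hl => (mem_filter.1 (ht hl)).2
    have h3 : ((Icc 1 x).filter (fun e => t ⊆ e.primeFactors)).card ≤ x / (∏ l ∈ t, l) := by
      have h4 : (Icc 1 x).filter (fun e => t ⊆ e.primeFactors) ⊆ (Ioc 0 x).filter (fun e => (∏ l ∈ t, l) ∣ e) := by
        intro e he
        rw [mem_filter, mem_Icc] at he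
        rw [mem_filter, mem_Ioc]
        refine ⟨⟨by omega, by omega⟩, ?_⟩
        exact (Finset.prod_dvd_prod_of_subset _ _ _ he.2).trans (Nat.prod_primeFactors_dvd e)
      calc _ ≤ _ := Finset.card_le_card h4
        _ = x / (∏ l ∈ t, l) := Nat.Ioc_filter_dvd_card_eq_div x _
    have h5 : (((Icc 1 x).filter (fun e => t ⊆ e.primeFactors)).card : ℝ) ≤ x / (∏ l ∈ t, (l : ℝ)) := by
      calc (((Icc 1 x).filter (fun e => t ⊆ e.primeFactors)).card : ℝ) ≤ ((x / (∏ l ∈ t, l) : ℕ) : ℝ) := by exact_mod_cast h3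
        _ ≤ (x : ℝ) / ((∏ l ∈ t, l : ℕ) : ℝ) := Nat.cast_div_le
        _ = x / (∏ l ∈ t, (l : ℝ)) := by push_cast; rfl
    calc (((Icc 1 x).filter (fun e => t ⊆ e.primeFactors)).card : ℝ) * ∏ l ∈ t, (126 / (l : ℝ))
        ≤ (x / (∏ l ∈ t, (l : ℝ))) * ∏ l ∈ t, (126 / (l : ℝ)) :=
          mul_le_mul_of_nonneg_right h5 (Finset.prod_nonneg fun l _ => by positivity)
      _ = (x : ℝ) * ∏ l ∈ t, (126 / (l : ℝ) ^ 2) := by
          rw [div_eq_mul_inv, mul_assoc, ← Finset.prod_inv_distrib, ← Finset.prod_mul_distrib]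
          congr 1
          refine Finset.prod_congr rfl (fun l _ => ?_)
          rw [sq, div_mul_eq_div_div]
          ring
  refine (Finset.sum_le_sum h2).trans ?_
  rw [← Finset.mul_sum, ← Finset.prod_one_add, mul_comm]
  refine mul_le_mul_of_nonneg_right ?_ (Nat.cast_nonneg x)
  calc ∏ l ∈ P, (1 + 126 / (l : ℝ) ^ 2) ≤ ∏ l ∈ P, Real.exp (126 / (l : ℝ) ^ 2) := by
        refine Finset.prod_le_prod (fun l _ => by positivity) (fun l _ => ?_)
        rw [add_comm]; exact Real.add_one_le_exp _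
    _ = Real.exp (∑ l ∈ P, 126 / (l : ℝ) ^ 2) := (Real.exp_sum _ _).symm
    _ ≤ _ := Real.exp_le_exp.2 (hs.sum_le_tsum _ (fun l _ => by positivity))

/-- one of the three sums -/
theorem av_sum {C : ℝ} (hC : ∀ x : ℕ, ∑ e ∈ Icc 1 x, avE e ≤ C * x) (K G : ℕ) (hG : 1 ≤ G) (φ ψ : ℕ × ℕ → ℕ)
    (h1 : ∀ t ∈ prs K G, 1 ≤ φ t ∧ φ t < K ∧ Nat.gcd t.1 t.2 ∣ φ t)
    (h2 : ∀ t ∈ prs K G, 1 ≤ ψ t ∧ ψ t < K ∧ Nat.gcd t.1 t.2 ∣ ψ t)
    (h3 : ∀ t t', φ t = φ t' → ψ t = ψ t' → t = t') :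
    ∑ t ∈ prs K G, avE (φ t) ≤ ∑ g ∈ Ico G K, C * ((K : ℝ) / g) ^ 2 * avE g := by
  classical
  have hm : ∀ t ∈ prs K G, Nat.gcd t.1 t.2 ∈ Ico G K := by
    intro t ht
    have h4 := ht
    unfold prs at h4
    rw [mem_filter, mem_product, mem_Ico, mem_Ico] at h4
    rw [mem_Ico]
    exact ⟨h4.2.2, (Nat.gcd_le_left _ (by omega)).trans_lt h4.1.1.2⟩
  rw [← Finset.sum_fiberwise_of_maps_to hm]
  refine Finset.sum_le_sum (fun g hg => ?_)
  rw [mem_Ico] at hg
  have hg0 : 0 < g := by omega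
  have hgr : (0 : ℝ) < g := by exact_mod_cast hg0
  let Φ : ℕ × ℕ → ℕ × ℕ := fun t => (φ t / g, ψ t / g)
  have hT : ∀ t ∈ (prs K G).filter (fun t => Nat.gcd t.1 t.2 = g), t ∈ prs K G ∧ g ∣ φ t ∧ g ∣ ψ t := by
    intro t ht
    rw [mem_filter] at ht
    refine ⟨ht.1, ?_, ?_⟩
    · rw [← ht.2]; exact (h1 t ht.1).2.2
    · rw [← ht.2]; exact (h2 t ht.1).2.2
  have hinj : ∀ t ∈ (prs K G).filter (fun t => Nat.gcd t.1 t.2 = g), ∀ t' ∈ (prs K G).filter (fun t => Nat.gcd t.1 t.2 = g),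
      Φ t = Φ t' → t = t' := by
    intro t ht t' ht' he
    obtain ⟨-, a1, a2⟩ := hT t ht
    obtain ⟨-, b1, b2⟩ := hT t' ht'
    have e1 : φ t / g = φ t' / g := congrArg Prod.fst he
    have e2 : ψ t / g = ψ t' / g := congrArg Prod.snd he
    apply h3
    · rw [← Nat.div_mul_cancel a1, e1, Nat.div_mul_cancel b1]
    · rw [← Nat.div_mul_cancel a2, e2, Nat.div_mul_cancel b2]
  calc ∑ t ∈ (prs K G).filter (fun t => Nat.gcd t.1 t.2 = g), avE (φ t)
      ≤ ∑ t ∈ (prs K G).filter (fun t => Nat.gcd t.1 t.2 = g), avE g * avE (Φ t).1 := by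
        refine Finset.sum_le_sum (fun t ht => ?_)
        obtain ⟨a0, a1, -⟩ := hT t ht
        have e1 : g * (φ t / g) = φ t := Nat.mul_div_cancel' a1
        have h4 : φ t / g ≠ 0 := by
          intro h5
          rw [h5, mul_zero] at e1
          have := (h1 t a0).1
          omega
        have h5 := avE_mul hg0.ne' h4
        rw [e1] at h5
        exact h5
    _ = ∑ u ∈ ((prs K G).filter (fun t => Nat.gcd t.1 t.2 = g)).image Φ, avE g * avE u.1 :=
        (Finset.sum_image (f := fun u : ℕ × ℕ => avE g * avE u.1) (fun t ht t' ht' he => hinj t ht t' ht' he)).symm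
    _ ≤ ∑ u ∈ Icc 1 (K / g) ×ˢ Icc 1 (K / g), avE g * avE u.1 := by
        refine Finset.sum_le_sum_of_subset_of_nonneg ?_ (fun u _ _ => ?_)
        · intro u hu
          rw [mem_image] at hu
          obtain ⟨t, ht, rfl⟩ := hu
          obtain ⟨a0, a1, a2⟩ := hT t ht
          have b1 := h1 t a0
          have b2 := h2 t a0
          rw [mem_product, mem_Icc, mem_Icc]
          exact ⟨⟨Nat.div_pos (Nat.le_of_dvd b1.1 a1) hg0, Nat.div_le_div_right b1.2.1.le⟩,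
            Nat.div_pos (Nat.le_of_dvd b2.1 a2) hg0, Nat.div_le_div_right b2.2.1.le⟩
        · have a1 := avE_one_le g
          have a2 := avE_one_le u.1
          positivity
    _ = avE g * ((∑ i ∈ Icc 1 (K / g), avE i) * ((K / g : ℕ) : ℝ)) := by
        rw [Finset.sum_product]
        simp only [Finset.sum_const, Nat.card_Icc, nsmul_eq_mul, Nat.add_sub_cancel]
        rw [Finset.sum_mul, Finset.mul_sum]
        refine Finset.sum_congr rfl (fun i _ => ?_)
        ring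
    _ ≤ avE g * ((C * ((K / g : ℕ) : ℝ)) * ((K / g : ℕ) : ℝ)) := by
        have a1 := avE_one_le g
        refine mul_le_mul_of_nonneg_left ?_ (by linarith)
        exact mul_le_mul_of_nonneg_right (hC _) (Nat.cast_nonneg _)
    _ ≤ C * ((K : ℝ) / g) ^ 2 * avE g := by
        have a1 := avE_one_le g
        have hC0 : 0 ≤ C := by
          have h4 := hC 1
          rw [Finset.Icc_self, Finset.sum_singleton, Nat.cast_one, mul_one] at h4
          linarith [avE_one_le 1]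
        have a2 : ((K / g : ℕ) : ℝ) ≤ (K : ℝ) / g := Nat.cast_div_le
        have a3 : (0 : ℝ) ≤ ((K / g : ℕ) : ℝ) := Nat.cast_nonneg _
        have a4 : ((K / g : ℕ) : ℝ) ^ 2 ≤ ((K : ℝ) / g) ^ 2 := pow_le_pow_left₀ a3 a2 2
        calc avE g * ((C * ((K / g : ℕ) : ℝ)) * ((K / g : ℕ) : ℝ)) = C * ((K / g : ℕ) : ℝ) ^ 2 * avE g := by ring
          _ ≤ C * ((K : ℝ) / g) ^ 2 * avE g := by
            refine mul_le_mul_of_nonneg_right (mul_le_mul_of_nonneg_left a4 hC0) (by linarith)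

/-- the average of the local factors, with large gcd. -/
theorem av : ∃ τ : ℕ → ℝ, Tendsto τ atTop (𝓝 0) ∧ (∀ G, 0 ≤ τ G) ∧ ∀ K G : ℕ, 1 ≤ G →
    ∑ t ∈ prs K G, F t.1 * F t.2 * F (t.1 + t.2) ≤ τ G * (K : ℝ) ^ 2 := by
  obtain ⟨C, hC0, hC⟩ := avE_mean
  obtain ⟨C', hC0', hC'⟩ := avE_sqrt
  let f : ℕ → ℝ := fun g => (g : ℝ) ^ (-(3 / 2) : ℝ)
  have hf : Summable f := Real.summable_nat_rpow.2 (by norm_num)
  have hf0 : ∀ g, 0 ≤ f g := fun g => Real.rpow_nonneg (Nat.cast_nonneg g) _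
  have hsh : ∀ G : ℕ, Summable fun k => f (k + G) := fun G => (summable_nat_add_iff G).2 hf
  refine ⟨fun G => 3 * (C * C') * ∑' k, f (k + G), ?_, ?_, ?_⟩
  · have h1 := tendsto_sum_nat_add f
    have h2 := h1.const_mul (3 * (C * C'))
    rwa [mul_zero] at h2
  · intro G
    have h1 : 0 ≤ ∑' k, f (k + G) := tsum_nonneg fun k => hf0 _
    positivity
  · intro K G hG
    have hprs : ∀ t ∈ prs K G, 1 ≤ t.1 ∧ t.1 < K ∧ 1 ≤ t.2 ∧ t.2 < K ∧ t.1 + t.2 < K := by
      intro t ht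
      unfold prs at ht
      rw [mem_filter, mem_product, mem_Ico, mem_Ico] at ht
      omega
    have hA := av_sum hC K G hG (fun t => t.1) (fun t => t.2)
      (fun t ht => ⟨(hprs t ht).1, (hprs t ht).2.1, Nat.gcd_dvd_left _ _⟩)
      (fun t ht => ⟨(hprs t ht).2.2.1, (hprs t ht).2.2.2.1, Nat.gcd_dvd_right _ _⟩)
      (fun t t' e1 e2 => Prod.ext e1 e2)
    have hB := av_sum hC K G hG (fun t => t.2) (fun t => t.1)
      (fun t ht => ⟨(hprs t ht).2.2.1, (hprs t ht).2.2.2.1, Nat.gcd_dvd_right _ _⟩)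
      (fun t ht => ⟨(hprs t ht).1, (hprs t ht).2.1, Nat.gcd_dvd_left _ _⟩)
      (fun t t' e1 e2 => Prod.ext e2 e1)
    have hD := av_sum hC K G hG (fun t => t.1 + t.2) (fun t => t.1)
      (fun t ht => ⟨by have := hprs t ht; omega, (hprs t ht).2.2.2.2,
        Nat.dvd_add (Nat.gcd_dvd_left _ _) (Nat.gcd_dvd_right _ _)⟩)
      (fun t ht => ⟨(hprs t ht).1, (hprs t ht).2.1, Nat.gcd_dvd_left _ _⟩)
      (fun t t' e1 e2 => Prod.ext e2 (by
        have e1' : t.1 + t.2 = t'.1 + t'.2 := e1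
        have e2' : t.1 = t'.1 := e2
        omega))
    have hS : ∑ g ∈ Ico G K, C * ((K : ℝ) / g) ^ 2 * avE g ≤ (C * C') * (∑' k, f (k + G)) * (K : ℝ) ^ 2 := by
      have h1 : ∀ g ∈ Ico G K, C * ((K : ℝ) / g) ^ 2 * avE g ≤ (C * C') * (K : ℝ) ^ 2 * f g := by
        intro g hg
        rw [mem_Ico] at hg
        have hg0 : 1 ≤ g := by omega
        have hgr : (0 : ℝ) < g := by exact_mod_cast hg0
        have h2 : Real.sqrt g / (g : ℝ) ^ 2 = f g := by
          change _ = (g : ℝ) ^ (-(3 / 2) : ℝ)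
          rw [Real.sqrt_eq_rpow, ← Real.rpow_natCast, ← Real.rpow_sub hgr]
          norm_num
        calc C * ((K : ℝ) / g) ^ 2 * avE g ≤ C * ((K : ℝ) / g) ^ 2 * (C' * Real.sqrt g) :=
              mul_le_mul_of_nonneg_left (hC' g hg0) (by positivity)
          _ = (C * C') * (K : ℝ) ^ 2 * (Real.sqrt g / (g : ℝ) ^ 2) := by
              rw [div_pow]; ring
          _ = _ := by rw [h2]
      refine (Finset.sum_le_sum h1).trans ?_
      rw [← Finset.mul_sum]
      have h3 : ∑ g ∈ Ico G K, f g ≤ ∑' k, f (k + G) := by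
        rw [Finset.sum_Ico_eq_sum_range]
        have h4 : ∑ k ∈ range (K - G), f (G + k) = ∑ k ∈ range (K - G), f (k + G) :=
          Finset.sum_congr rfl (fun k _ => by rw [add_comm])
        rw [h4]
        exact (hsh G).sum_le_tsum _ (fun k _ => hf0 _)
      calc (C * C') * (K : ℝ) ^ 2 * ∑ g ∈ Ico G K, f g ≤ (C * C') * (K : ℝ) ^ 2 * ∑' k, f (k + G) :=
            mul_le_mul_of_nonneg_left h3 (by positivity)
        _ = _ := by ring
    calc ∑ t ∈ prs K G, F t.1 * F t.2 * F (t.1 + t.2)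
        ≤ ∑ t ∈ prs K G, (avE t.1 + avE t.2 + avE (t.1 + t.2)) := by
          refine Finset.sum_le_sum (fun t _ => ?_)
          refine (av_amgm (av_F_nonneg _) (av_F_nonneg _) (av_F_nonneg _)).trans ?_
          exact add_le_add (add_le_add (av_F_cube _) (av_F_cube _)) (av_F_cube _)
      _ = ∑ t ∈ prs K G, avE t.1 + ∑ t ∈ prs K G, avE t.2 + ∑ t ∈ prs K G, avE (t.1 + t.2) := by
          rw [Finset.sum_add_distrib, Finset.sum_add_distrib]
      _ ≤ (C * C') * (∑' k, f (k + G)) * (K : ℝ) ^ 2 + (C * C') * (∑' k, f (k + G)) * (K : ℝ) ^ 2 +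
          (C * C') * (∑' k, f (k + G)) * (K : ℝ) ^ 2 :=
          add_le_add (add_le_add (hA.trans hS) (hB.trans hS)) (hD.trans hS)
      _ = 3 * (C * C') * (∑' k, f (k + G)) * (K : ℝ) ^ 2 := by ring

end Pool.Agent.Brc
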