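import Pool.Agent.Brc.Defs

set_option autoImplicit false

/-!
# Most elements of a set of primes are good
-/

open Finset

namespace Pool.Agent.Brc

private theorem cb_close {B s : Finset ℕ} {K R : ℕ} (hs : s ⊆ B) (hd : ∀ a ∈ s, ∀ b ∈ s, b < a + K)
    (hR : ∀ n ∈ s, (B.filter (fun m => n < m ∧ m < n + K)).card ≤ R) : s.card ≤ R + 1 := by
  rcases s.eq_empty_or_nonempty with h0 | hne
  · rw [h0]
    simp
  · have hm := s.min'_mem hne
    have h1 : s.erase (s.min' hne) ⊆ B.filter (fun m => s.min' hne < m ∧ m < s.min' hne + K) := by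
      intro m hm'
      rw [Finset.mem_erase] at hm'
      rw [Finset.mem_filter]
      exact ⟨hs hm'.2, lt_of_le_of_ne (s.min'_le m hm'.2) (Ne.symm hm'.1), hd _ hm _ hm'.2⟩
    have h2 := (Finset.card_le_card h1).trans (hR _ hm)
    rw [Finset.card_erase_of_mem hm] at h2
    omega

/-- elements with at most one successor within distance `K`. -/
theorem lonely_card (N K : ℕ) (hK : 1 ≤ K) (B : Finset ℕ) (hB : B ⊆ Ioc N (2 * N)) :
    ((B.filter (fun n => (B.filter (fun m => n < m ∧ m < n + K)).card ≤ 1)).card : ℝ) ≤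
      2 * (N / K + 2) := by
  classical
  set L := B.filter (fun n => (B.filter (fun m => n < m ∧ m < n + K)).card ≤ 1) with hL
  have h1 : L.card ≤ 2 * (L.image (fun n => n / K)).card := by
    apply Finset.card_le_mul_card_image
    intro c _
    apply cb_close (B := B) (K := K) (R := 1)
    · exact (Finset.filter_subset _ _).trans (Finset.filter_subset _ _)
    · intro a ha b hb
      have ha' := (Finset.mem_filter.1 ha).2
      have hb' := (Finset.mem_filter.1 hb).2
      have h2 := Nat.div_add_mod a K
      have h3 := Nat.div_add_mod b K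
      have h4 := Nat.mod_lt b (show 0 < K by omega)
      rw [ha'] at h2
      rw [hb'] at h3
      omega
    · intro n hn
      have h2 := (Finset.mem_filter.1 hn).1
      rw [hL] at h2
      exact (Finset.mem_filter.1 h2).2
  have h2 : L.image (fun n => n / K) ⊆ Icc (N / K) (2 * N / K) := by
    intro c hc
    obtain ⟨n, hn, rfl⟩ := Finset.mem_image.1 hc
    rw [hL] at hn
    have h3 := Finset.mem_Ioc.1 (hB (Finset.mem_filter.1 hn).1)
    rw [Finset.mem_Icc]
    exact ⟨Nat.div_le_div_right h3.1.le, Nat.div_le_div_right h3.2⟩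
  have h3 := Finset.card_le_card h2
  rw [Nat.card_Icc] at h3
  have hKR : (0 : ℝ) < K := by exact_mod_cast (show 0 < K by omega)
  have h4 : ((2 * N / K : ℕ) : ℝ) ≤ 2 * N / K := by
    have := @Nat.cast_div_le ℝ _ _ _ (2 * N) K
    rw [Nat.cast_mul] at this
    exact this
  have h5 : (N : ℝ) / K < ((N / K : ℕ) : ℝ) + 1 := by
    rw [div_lt_iff₀ hKR]
    have h6 := Nat.div_add_mod N K
    have h7 := Nat.mod_lt N (show 0 < K by omega)
    have h8 : N < (N / K + 1) * K := by
      calc N = K * (N / K) + N % K := h6.symm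
        _ < K * (N / K) + K := by omega
        _ = (N / K + 1) * K := by ring
    exact_mod_cast h8
  have h6 : N / K ≤ 2 * N / K := Nat.div_le_div_right (by omega)
  have h7 : ((2 * N / K + 1 - N / K : ℕ) : ℝ) = ((2 * N / K : ℕ) : ℝ) + 1 - ((N / K : ℕ) : ℝ) := by
    rw [Nat.cast_sub (by omega)]
    push_cast
    ring
  have h8 : (L.card : ℝ) ≤ 2 * ((2 * N / K + 1 - N / K : ℕ) : ℝ) := by
    exact_mod_cast h1.trans (Nat.mul_le_mul_left 2 h3)
  rw [h7] at h8
  have h9 : (2 : ℝ) * N / K = N / K + N / K := by ring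
  rw [h9] at h4
  linarith

private theorem cb_tri {N K G : ℕ} {B : Finset ℕ} (hB : B ⊆ (Ioc N (2 * N)).filter Nat.Prime) {n m m' : ℕ}
    (hn : n ∈ B) (hm : m ∈ B) (hm' : m' ∈ B) (h1 : n < m) (h2 : m < m') (h3 : m' < n + K)
    (hG : G ≤ Nat.gcd (m - n) (m' - m)) : (n, m - n, m' - m) ∈ tri N K G := by
  have p1 := Finset.mem_filter.1 (hB hn)
  have p2 := (Finset.mem_filter.1 (hB hm)).2
  have p3 := (Finset.mem_filter.1 (hB hm')).2
  unfold tri prs
  simp only [Finset.mem_filter, Finset.mem_product, Finset.mem_Ico]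
  refine ⟨⟨p1.1, ⟨⟨by omega, by omega⟩, ⟨by omega, by omega⟩⟩, by omega, hG⟩, p1.2, ?_, ?_⟩
  · rw [show n + (m - n) = m by omega]
    exact p2
  · rw [show n + (m - n) + (m' - m) = m' by omega]
    exact p3

/-- the count of good elements. -/
theorem good_card (N K G R : ℕ) (hK : 1 ≤ K) (hR : 1 ≤ R) (B : Finset ℕ)
    (hB : B ⊆ (Ioc N (2 * N)).filter Nat.Prime) :
    (B.card : ℝ) ≤ (good B K G R).card + 2 * (N / K + 2) + (tri N K G).card +
      (tri N K 1).card / R := by
  classical
  set L := B.filter (fun n => (B.filter (fun m => n < m ∧ m < n + K)).card ≤ 1) with hL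
  set S1 := (tri N K G).image Prod.fst with hS1
  set S2 := B.filter (fun n => R < (B.filter (fun m => n < m ∧ m < n + K)).card) with hS2
  have hlon := lonely_card N K hK B (hB.trans (Finset.filter_subset _ _))
  rw [← hL] at hlon
  have hcov : B ⊆ good B K G R ∪ L ∪ S1 ∪ S2 := by
    intro n hn
    by_cases h2 : R < (B.filter (fun m => n < m ∧ m < n + K)).card
    · exact Finset.mem_union_right _ (Finset.mem_filter.2 ⟨hn, h2⟩)
    apply Finset.mem_union_left
    by_cases h1 : (B.filter (fun m => n < m ∧ m < n + K)).card ≤ 1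
    · exact Finset.mem_union_left _ (Finset.mem_union_right _ (Finset.mem_filter.2 ⟨hn, h1⟩))
    push Not at h1 h2
    set M := B.filter (fun m => n < m ∧ m < n + K) with hM
    have hne : M.Nonempty := Finset.card_pos.1 (by omega)
    have hm := M.min'_mem hne
    obtain ⟨m', hm'⟩ : (M.erase (M.min' hne)).Nonempty := by
      rw [← Finset.card_pos, Finset.card_erase_of_mem hm]
      omega
    rw [Finset.mem_erase] at hm'
    have hlt : M.min' hne < m' := lt_of_le_of_ne (M.min'_le m' hm'.2) (Ne.symm hm'.1)
    set m := M.min' hne with hmdef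
    have q1 := Finset.mem_filter.1 (hM ▸ hm)
    have q2 := Finset.mem_filter.1 (hM ▸ hm'.2)
    by_cases hG : G ≤ Nat.gcd (m - n) (m' - m)
    · apply Finset.mem_union_right
      rw [hS1, Finset.mem_image]
      exact ⟨_, cb_tri hB hn q1.1 q2.1 q1.2.1 hlt q2.2.2 hG, rfl⟩
    · push Not at hG
      apply Finset.mem_union_left
      apply Finset.mem_union_left
      unfold good
      rw [Finset.mem_filter]
      refine ⟨hn, ⟨m - n, Finset.mem_Ico.2 ⟨by omega, by omega⟩, m' - m, Finset.mem_Ico.2 ⟨by omega, by omega⟩,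
        by omega, hG, ?_, ?_⟩, h2⟩
      · rw [show n + (m - n) = m by omega]
        exact q1.1
      · rw [show n + (m - n) + (m' - m) = m' by omega]
        exact q2.1
  have hc1 : S1.card ≤ (tri N K G).card := Finset.card_image_le
  have hfib : ∀ n ∈ S2, R ≤ ((tri N K 1).filter (fun t => t.1 = n)).card := by
    intro n hn
    rw [hS2, Finset.mem_filter] at hn
    obtain ⟨hn, h2⟩ := hn
    set M := B.filter (fun m => n < m ∧ m < n + K) with hM
    have hne : M.Nonempty := Finset.card_pos.1 (by omega)
    have hm := M.min'_mem hne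
    set m := M.min' hne with hmdef
    have q1 := Finset.mem_filter.1 (hM ▸ hm)
    have hinj : Set.InjOn (fun m' : ℕ => (n, m - n, m' - m)) (M.erase m : Finset ℕ) := by
      intro x hx y hy hxy
      rw [Finset.mem_coe, Finset.mem_erase] at hx hy
      have h3 : m ≤ x := M.min'_le x hx.2
      have h4 : m ≤ y := M.min'_le y hy.2
      simp only [Prod.mk.injEq, true_and] at hxy
      omega
    have hsub : (M.erase m).image (fun m' : ℕ => (n, m - n, m' - m)) ⊆ (tri N K 1).filter (fun t => t.1 = n) := by
      intro t ht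
      obtain ⟨m', hm', rfl⟩ := Finset.mem_image.1 ht
      rw [Finset.mem_erase] at hm'
      have hlt : m < m' := lt_of_le_of_ne (M.min'_le m' hm'.2) (Ne.symm hm'.1)
      have q2 := Finset.mem_filter.1 (hM ▸ hm'.2)
      rw [Finset.mem_filter]
      refine ⟨cb_tri hB hn q1.1 q2.1 q1.2.1 hlt q2.2.2 ?_, rfl⟩
      exact Nat.gcd_pos_of_pos_left _ (by omega)
    have h5 := Finset.card_le_card hsub
    rw [Finset.card_image_of_injOn hinj, Finset.card_erase_of_mem hm] at h5
    omega
  have hc2 : S2.card * R ≤ (tri N K 1).card := by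
    have hdis : (S2 : Set ℕ).PairwiseDisjoint (fun n => (tri N K 1).filter (fun t => t.1 = n)) := by
      intro x _ y _ hxy
      apply Finset.disjoint_left.2
      intro t ht ht'
      exact hxy ((Finset.mem_filter.1 ht).2.symm.trans (Finset.mem_filter.1 ht').2)
    calc S2.card * R = ∑ n ∈ S2, R := by rw [Finset.sum_const, smul_eq_mul]
      _ ≤ ∑ n ∈ S2, ((tri N K 1).filter (fun t => t.1 = n)).card := Finset.sum_le_sum hfib
      _ = (S2.biUnion (fun n => (tri N K 1).filter (fun t => t.1 = n))).card := (Finset.card_biUnion hdis).symm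
      _ ≤ (tri N K 1).card := by
          apply Finset.card_le_card
          intro t ht
          obtain ⟨n, -, hn⟩ := Finset.mem_biUnion.1 ht
          exact (Finset.mem_filter.1 hn).1
  have hRR : (0 : ℝ) < R := by exact_mod_cast (show 0 < R by omega)
  have hc2' : (S2.card : ℝ) ≤ (tri N K 1).card / R := by
    rw [le_div_iff₀ hRR]
    exact_mod_cast hc2
  have hc : B.card ≤ (good B K G R).card + L.card + S1.card + S2.card := by
    calc B.card ≤ (good B K G R ∪ L ∪ S1 ∪ S2).card := Finset.card_le_card hcov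
      _ ≤ (good B K G R ∪ L ∪ S1).card + S2.card := Finset.card_union_le _ _
      _ ≤ (good B K G R ∪ L).card + S1.card + S2.card := Nat.add_le_add_right (Finset.card_union_le _ _) _
      _ ≤ (good B K G R).card + L.card + S1.card + S2.card :=
          Nat.add_le_add_right (Nat.add_le_add_right (Finset.card_union_le _ _) _) _
  have hcR : (B.card : ℝ) ≤ (good B K G R).card + L.card + S1.card + S2.card := by exact_mod_cast hc
  have hc1R : (S1.card : ℝ) ≤ (tri N K G).card := by exact_mod_cast hc1
  linarith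

/-- few good elements in a window. -/
theorem good_window (B : Finset ℕ) (K G R x c : ℕ) (hK : 1 ≤ K) :
    ((good B K G R).filter (fun n => x ≤ n ∧ n < x + c * K)).card ≤ c * (R + 1) := by
  classical
  set S := (good B K G R).filter (fun n => x ≤ n ∧ n < x + c * K) with hS
  have hSg : ∀ n ∈ S, n ∈ B ∧ (B.filter (fun m => n < m ∧ m < n + K)).card ≤ R ∧ x ≤ n ∧ n < x + c * K := by
    intro n hn
    rw [hS, Finset.mem_filter] at hn
    obtain ⟨h1, h2, h3⟩ := hn
    unfold good at h1
    rw [Finset.mem_filter] at h1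
    exact ⟨h1.1, h1.2.2, h2, h3⟩
  have h1 : S.card ≤ (R + 1) * (S.image (fun n => (n - x) / K)).card := by
    apply Finset.card_le_mul_card_image
    intro d _
    apply cb_close (B := B) (K := K) (R := R)
    · intro n hn
      exact (hSg n (Finset.mem_filter.1 hn).1).1
    · intro a ha b hb
      have ha' := (Finset.mem_filter.1 ha).2
      have hb' := (Finset.mem_filter.1 hb).2
      have ha1 := hSg a (Finset.mem_filter.1 ha).1
      have hb1 := hSg b (Finset.mem_filter.1 hb).1
      have h2 := Nat.div_add_mod (a - x) K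
      have h3 := Nat.div_add_mod (b - x) K
      have h4 := Nat.mod_lt (b - x) (show 0 < K by omega)
      rw [ha'] at h2
      rw [hb'] at h3
      omega
    · intro n hn
      exact (hSg n (Finset.mem_filter.1 hn).1).2.1
  have h2 : (S.image (fun n => (n - x) / K)).card ≤ c := by
    have h3 : S.image (fun n => (n - x) / K) ⊆ range c := by
      intro d hd
      obtain ⟨n, hn, rfl⟩ := Finset.mem_image.1 hd
      have h4 := hSg n hn
      rw [Finset.mem_range]
      exact Nat.div_lt_of_lt_mul (by rw [Nat.mul_comm]; omega)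
    have h4 := Finset.card_le_card h3
    rwa [Finset.card_range] at h4
  calc S.card ≤ (R + 1) * (S.image (fun n => (n - x) / K)).card := h1
    _ ≤ (R + 1) * c := Nat.mul_le_mul_left _ h2
    _ = c * (R + 1) := Nat.mul_comm _ _

end Pool.Agent.Brc
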