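import Pool.Agent.NTot.SL
import Pool.Agent.NTot.Mertens
import Pool.Agent.MRE.Key

set_option autoImplicit false

/-!
# Parity at Cramér scale below squares of primes: definitions
-/

open Finset

namespace Pool.Agent.Brc

/-- the local factor of the triple sieve. -/
noncomputable def F (d : ℕ) : ℝ := ∏ l ∈ d.primeFactors, (1 + 6 / (l : ℝ))

/-- pairs of positive integers with sum `< K` and `gcd ≥ G`. -/
def prs (K G : ℕ) : Finset (ℕ × ℕ) :=
  (Ico 1 K ×ˢ Ico 1 K).filter (fun t => t.1 + t.2 < K ∧ G ≤ Nat.gcd t.1 t.2)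

/-- `n` in `(N, 2N]`, `(a, b)` in `prs K G`, with `n`, `n + a`, `n + a + b` all prime. -/
def tri (N K G : ℕ) : Finset (ℕ × ℕ × ℕ) :=
  (Ioc N (2 * N) ×ˢ prs K G).filter
    (fun t => t.1.Prime ∧ (t.1 + t.2.1).Prime ∧ (t.1 + t.2.1 + t.2.2).Prime)

/-- the good elements of `B`. -/
def good (B : Finset ℕ) (K G R : ℕ) : Finset ℕ :=
  B.filter (fun n => (∃ a ∈ Ico 1 K, ∃ b ∈ Ico 1 K, a + b < K ∧ Nat.gcd a b < G ∧
    n + a ∈ B ∧ n + a + b ∈ B) ∧ (B.filter (fun m => n < m ∧ m < n + K)).card ≤ R)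

end Pool.Agent.Brc
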