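import Pool.Agent.Brc.Defs

set_option autoImplicit false

/-!
# The theorem of Fine and Wilf with multipliers, and the local analysis
-/

open Finset

namespace Pool.Agent.Brc

open Pool.Agent.MR Pool.Agent.MRE

theorem fw_ne {q : ℕ} (hq : 1 ≤ q) {β : ℂ} (h : β ^ q = 1) : β ≠ 0 := by
  rintro rfl
  rw [zero_pow (by omega)] at h
  exact zero_ne_one h

theorem fw_step (q : ℕ) (hq : 1 ≤ q) (f : ℕ → ℂ) (s t a b : ℕ) (hab : b < a) (α β : ℂ)
    (hβ : β ^ q = 1) (h1 : ∀ m, s ≤ m → m + a < t → f (m + a) = α * f m)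
    (h2 : ∀ m, s ≤ m → m + b < t → f (m + b) = β * f m) (h : s + a + b ≤ t) :
    ∀ m, s ≤ m → m + (a - b) < t → f (m + (a - b)) = α * β⁻¹ * f m := by
  intro m hm hmt
  have hβ0 := fw_ne hq hβ
  by_cases hc : m + a < t
  · have e1 := h1 m hm hc
    have e2 := h2 (m + (a - b)) (by omega) (by omega)
    have e3 : m + (a - b) + b = m + a := by omega
    rw [e3, e1] at e2
    field_simp
    rw [e2]
    ring
  · have e1 := h2 (m - b) (by omega) (by omega)
    have e2 := h1 (m - b) (by omega) (by omega)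
    have e3 : m - b + b = m := by omega
    have e4 : m - b + a = m + (a - b) := by omega
    rw [e3] at e1
    rw [e4] at e2
    rw [e2, e1]
    field_simp

/-- Fine–Wilf with multipliers. -/
theorem fw (q : ℕ) (hq : 1 ≤ q) (f : ℕ → ℂ) (s t : ℕ) : ∀ a b : ℕ, 1 ≤ a → 1 ≤ b → ∀ α β : ℂ, α ^ q = 1 →
    β ^ q = 1 → (∀ m, s ≤ m → m + a < t → f (m + a) = α * f m) →
    (∀ m, s ≤ m → m + b < t → f (m + b) = β * f m) → s + a + b ≤ t →
    ∃ γ : ℂ, γ ^ q = 1 ∧ ∀ m, s ≤ m → m + Nat.gcd a b < t → f (m + Nat.gcd a b) = γ * f m := by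
  suffices H : ∀ n a b : ℕ, a + b ≤ n → 1 ≤ a → 1 ≤ b → ∀ α β : ℂ, α ^ q = 1 →
      β ^ q = 1 → (∀ m, s ≤ m → m + a < t → f (m + a) = α * f m) →
      (∀ m, s ≤ m → m + b < t → f (m + b) = β * f m) → s + a + b ≤ t →
      ∃ γ : ℂ, γ ^ q = 1 ∧ ∀ m, s ≤ m → m + Nat.gcd a b < t → f (m + Nat.gcd a b) = γ * f m from
    fun a b => H (a + b) a b le_rfl
  intro n
  induction n with
  | zero => intro a b h ha; omega
  | succ n ih =>
    intro a b hn ha hb α β hα hβ h1 h2 h
    rcases lt_trichotomy a b with hab | hab | hab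
    · have h3 := fw_step q hq f s t b a hab β α hα h2 h1 (by omega)
      obtain ⟨γ, hγ, h4⟩ := ih a (b - a) (by omega) ha (by omega) α (β * α⁻¹) hα
        (by rw [mul_pow, inv_pow, hα, hβ]; norm_num) h1 h3 (by omega)
      have e : Nat.gcd a (b - a) = Nat.gcd a b := Nat.gcd_sub_self_right hab.le
      rw [e] at h4
      exact ⟨γ, hγ, h4⟩
    · subst hab
      rw [Nat.gcd_self]
      exact ⟨α, hα, h1⟩
    · have h3 := fw_step q hq f s t a b hab α β hβ h1 h2 h
      obtain ⟨γ, hγ, h4⟩ := ih (a - b) b (by omega) (by omega) hb (α * β⁻¹) β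
        (by rw [mul_pow, inv_pow, hα, hβ]; norm_num) hβ h3 h2 (by omega)
      have e : Nat.gcd (a - b) b = Nat.gcd a b := Nat.gcd_sub_self_left hab.le
      rw [e] at h4
      exact ⟨γ, hγ, h4⟩

theorem fw_rel (q p i j U K : ℕ) (hU : U + 2 * K < p) (κ : ℂ)
    (h : ∀ u ∈ Ioc U (U + 2 * K), gz q ((p + i - u) * (p + j + u)) = κ) :
    ∀ x, p + i ≤ x + U + 2 * K → x + U < p + i → ∀ y, x + y = 2 * p + i + j →
      gz q x * gz q y = κ := by
  intro x hx1 hx2 y hy
  have h1 := h (p + i - x) (by rw [mem_Ioc]; omega)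
  have e1 : p + i - (p + i - x) = x := by omega
  have e2 : p + j + (p + i - x) = y := by omega
  rw [e1, e2, gz_mul q x y (by omega) (by omega)] at h1
  exact h1

theorem fw_iter (q : ℕ) (f : ℕ → ℂ) (s t d : ℕ) (γ : ℂ) (hγ : γ ^ q = 1)
    (h : ∀ m, s ≤ m → m + d < t → f (m + d) = γ * f m) :
    ∀ r m, s ≤ m → m + d * r < t → f (m + d * r) = γ ^ r * f m := by
  intro r
  induction r with
  | zero => intro m _ _; simp
  | succ r ih =>
    intro m hm hmt
    rw [mul_add, mul_one, ← add_assoc] at hmt ⊢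
    rw [h (m + d * r) (by omega) hmt, ih m hm (by omega), pow_succ]
    ring

/-- the local analysis: three centres give a bounded period. -/
theorem local3 (q : ℕ) (hq : 2 ≤ q) (n a b i j U K G W : ℕ) (ha : 1 ≤ a) (hb : 1 ≤ b)
    (hab : a + b < K) (hg : Nat.gcd a b < G) (hW : 2 * q * G.factorial ∣ W) (hU : U + 2 * K < n)
    (h : ∀ p : ℕ, p = n ∨ p = n + a ∨ p = n + a + b →
      ∃ κ : ℂ, ∀ u ∈ Ioc U (U + 2 * K), gz q ((p + i - u) * (p + j + u)) = κ) :
    ∀ x y : ℕ, n + a + i - U - 2 * K ≤ x → x < n + a + i - U → n + a + i - U - 2 * K ≤ y →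
      y < n + a + i - U → x ≡ y [MOD W] → gz q x = gz q y := by
  obtain ⟨κ1, k1⟩ := h n (Or.inl rfl)
  obtain ⟨κ2, k2⟩ := h (n + a) (Or.inr (Or.inl rfl))
  obtain ⟨κ3, k3⟩ := h (n + a + b) (Or.inr (Or.inr rfl))
  have hmem : U + 1 ∈ Ioc U (U + 2 * K) := by rw [mem_Ioc]; omega
  have q1 : κ1 ^ q = 1 := by rw [← k1 _ hmem]; exact gz_pow q hq _
  have q2 : κ2 ^ q = 1 := by rw [← k2 _ hmem]; exact gz_pow q hq _
  have q3 : κ3 ^ q = 1 := by rw [← k3 _ hmem]; exact gz_pow q hq _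
  have n1 := fw_ne (by omega) q1
  have n2 := fw_ne (by omega) q2
  have r1 := fw_rel q n i j U K hU κ1 k1
  have r2 := fw_rel q (n + a) i j U K (by omega) κ2 k2
  have r3 := fw_rel q (n + a + b) i j U K (by omega) κ3 k3
  obtain ⟨γ, hγ, hf⟩ := fw q (by omega) (gz q) (n + a + i - U - 2 * K) (n + a + i - U) (2 * a) (2 * b)
    (by omega) (by omega) (κ2 * κ1⁻¹) (κ3 * κ2⁻¹) (by rw [mul_pow, inv_pow, q1, q2]; norm_num)
    (by rw [mul_pow, inv_pow, q2, q3]; norm_num)
    (by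
      intro m hm hmt
      have e1 := r1 m (by omega) (by omega) (2 * n + i + j - m) (by omega)
      have e2 := r2 (m + 2 * a) (by omega) (by omega) (2 * n + i + j - m) (by omega)
      have e3 := gz_ne q hq (2 * n + i + j - m)
      rw [← e2, ← e1]
      have e4 := gz_ne q hq m
      field_simp)
    (by
      intro m hm hmt
      have e1 := r2 m (by omega) (by omega) (2 * (n + a) + i + j - m) (by omega)
      have e2 := r3 (m + 2 * b) (by omega) (by omega) (2 * (n + a) + i + j - m) (by omega)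
      have e3 := gz_ne q hq (2 * (n + a) + i + j - m)
      rw [← e2, ← e1]
      have e4 := gz_ne q hq m
      field_simp)
    (by omega)
  rw [Nat.gcd_mul_left] at hf
  have hit := fw_iter q (gz q) _ _ _ γ hγ hf
  have hdvd : 2 * Nat.gcd a b * q ∣ W := by
    refine dvd_trans ?_ hW
    have hg1 : 0 < Nat.gcd a b := Nat.gcd_pos_of_pos_left b ha
    have : Nat.gcd a b ∣ G.factorial := Nat.dvd_factorial hg1 hg.le
    obtain ⟨c, hc⟩ := this
    exact ⟨c, by rw [hc]; ring⟩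
  have key : ∀ x y : ℕ, n + a + i - U - 2 * K ≤ x → y < n + a + i - U → x ≤ y → x ≡ y [MOD W] →
      gz q x = gz q y := by
    intro x y hx hy hxy hm
    obtain ⟨c, hc⟩ := dvd_trans hdvd ((Nat.modEq_iff_dvd' hxy).1 hm)
    have e : y = x + 2 * Nat.gcd a b * (q * c) := by
      rw [← mul_assoc, ← hc]
      omega
    rw [e, hit (q * c) x hx (by rw [← e]; exact hy), pow_mul, hγ, one_pow, one_mul]
  intro x y hx1 hx2 hy1 hy2 hm
  rcases le_total x y with hxy | hxy
  · exact key x y hx1 hy2 hxy hm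
  · exact (key y x hy1 hx2 hxy hm.symm).symm

end Pool.Agent.Brc
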