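import Pool.Agent.Brc.Tr
import Pool.Agent.Brc.Cb
import Pool.Agent.Brc.Fw

set_option autoImplicit false

/-!
# The dyadic theorem
-/

open Finset Filter Topology

namespace Pool.Agent.Brc

open Pool.Agent.MR Pool.Agent.MRE

/-- windows on which `Ω mod q` is constant on the class `1` modulo `W`. -/
noncomputable def Sw (q W T N : ℕ) : Finset ℕ := by
  classical
  exact (Ico (N / 2 + 1) (4 * N)).filter (fun w => ∀ u ∈ Ico w (w + T), ∀ v ∈ Ico w (w + T),
        u ≡ 1 [MOD W] → v ≡ 1 [MOD W] → gz q u = gz q v)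

theorem Sw_card (q : ℕ) (hq : 2 ≤ q) (W : ℕ) (hW : 0 < W) (ε : ℝ) (hε : 0 < ε) :
    ∃ T : ℕ, 1 ≤ T ∧ ∃ N0 : ℕ, ∀ N : ℕ, N0 ≤ N → ((Sw q W T N).card : ℝ) ≤ 4 * ε * N := by
  classical
  obtain ⟨T0, hT0⟩ := const_count q hq W hW ε hε
  obtain ⟨N1, hN1⟩ := hT0 (max T0 1) (le_max_left _ _)
  refine ⟨max T0 1, le_max_right _ _, ⌈2 * N1⌉₊ + 1, fun N hN => ?_⟩
  have hNr : 2 * N1 ≤ (N : ℝ) := by
    have h1 := Nat.le_ceil (2 * N1)
    have h2 : ((⌈2 * N1⌉₊ : ℕ) : ℝ) ≤ N := by exact_mod_cast (by omega : ⌈2 * N1⌉₊ ≤ N)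
    linarith
  have hN0 : (0 : ℝ) < N := by
    have : 1 ≤ N := by omega
    exact_mod_cast this
  set S := Sw q W (max T0 1) N with hS
  have hmem : ∀ w ∈ S, (N : ℝ) / 2 ≤ w ∧ (w : ℝ) ≤ 4 * N ∧ ∀ u ∈ Ico w (w + max T0 1),
      ∀ v ∈ Ico w (w + max T0 1), u ≡ 1 [MOD W] → v ≡ 1 [MOD W] → gz q u = gz q v := by
    intro w hw
    rw [hS] at hw
    unfold Sw at hw
    rw [mem_filter, mem_Ico] at hw
    refine ⟨?_, ?_, hw.2⟩
    · have h1 : N ≤ 2 * w := by omega
      have h2 : (N : ℝ) ≤ 2 * w := by exact_mod_cast h1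
      linarith
    · have h1 : w ≤ 4 * N := by omega
      exact_mod_cast h1
  have hA := hN1 (N / 2) (by linarith) (S.filter (fun w : ℕ => (w : ℝ) ≤ N)) (by
    intro w hw
    rw [mem_filter] at hw
    obtain ⟨h1, h2, h3⟩ := hmem w hw.1
    exact ⟨h1, by linarith [hw.2], h3⟩)
  have hB := hN1 N (by linarith) (S.filter (fun w : ℕ => (N : ℝ) < w ∧ (w : ℝ) ≤ 2 * N)) (by
    intro w hw
    rw [mem_filter] at hw
    obtain ⟨h1, h2, h3⟩ := hmem w hw.1
    exact ⟨hw.2.1.le, hw.2.2, h3⟩)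
  have hC := hN1 (2 * N) (by linarith) (S.filter (fun w : ℕ => 2 * (N : ℝ) < w)) (by
    intro w hw
    rw [mem_filter] at hw
    obtain ⟨h1, h2, h3⟩ := hmem w hw.1
    exact ⟨hw.2.le, by linarith, h3⟩)
  have hsub : S ⊆ S.filter (fun w : ℕ => (w : ℝ) ≤ N) ∪ (S.filter (fun w : ℕ => (N : ℝ) < w ∧ (w : ℝ) ≤ 2 * N)
      ∪ S.filter (fun w : ℕ => 2 * (N : ℝ) < w)) := by
    intro w hw
    rw [mem_union, mem_union, mem_filter, mem_filter, mem_filter]
    rcases le_or_gt (w : ℝ) N with h | h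
    · exact Or.inl ⟨hw, h⟩
    · rcases le_or_gt (w : ℝ) (2 * N) with h' | h'
      · exact Or.inr (Or.inl ⟨hw, h, h'⟩)
      · exact Or.inr (Or.inr ⟨hw, h'⟩)
  have h1 := card_le_card hsub
  have h2 := card_union_le (S.filter (fun w : ℕ => (w : ℝ) ≤ N))
    (S.filter (fun w : ℕ => (N : ℝ) < w ∧ (w : ℝ) ≤ 2 * N) ∪ S.filter (fun w : ℕ => 2 * (N : ℝ) < w))
  have h3 := card_union_le (S.filter (fun w : ℕ => (N : ℝ) < w ∧ (w : ℝ) ≤ 2 * N))
    (S.filter (fun w : ℕ => 2 * (N : ℝ) < w))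
  generalize S.filter (fun w : ℕ => (w : ℝ) ≤ N) = s1 at *
  generalize S.filter (fun w : ℕ => (N : ℝ) < w ∧ (w : ℝ) ≤ 2 * N) = s2 at *
  generalize S.filter (fun w : ℕ => 2 * (N : ℝ) < w) = s3 at *
  have h4' : S.card ≤ s1.card + (s2.card + s3.card) := by omega
  have h4 : (S.card : ℝ) ≤ s1.card + (s2.card + s3.card) := by exact_mod_cast h4'
  have h5 : 0 < ε * N := by positivity
  linarith

/-- double counting of good elements against constant windows. -/
theorem good_double (q : ℕ) (hq : 2 ≤ q) (N K G R T i j U : ℕ) (hi : i ≤ N / 8) (hU : U ≤ N / 8)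
    (hK : 1 ≤ K) (hKN : 16 * K ≤ N) (hT : T ≤ K) (B : Finset ℕ) (hB : B ⊆ Ioc N (2 * N))
    (h : ∀ p ∈ B, ∃ κ : ℂ, ∀ u ∈ Ioc U (U + 2 * K), gz q ((p + i - u) * (p + j + u)) = κ) :
    K * (good B K G R).card ≤ (Sw q (2 * q * G.factorial) T N).card * (4 * (R + 1)) := by
  classical
  set S := Sw q (2 * q * G.factorial) T N with hS
  have key : ∀ n ∈ good B K G R, K ≤
      (S.bipartiteAbove (fun n w => n + i ≤ w + U + 2 * K ∧ w + U ≤ n + K + i) n).card := by
    intro n hn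
    unfold good at hn
    rw [mem_filter] at hn
    obtain ⟨hnB, ⟨a, ha, b, hb, hab, hg, hna, hnb⟩, -⟩ := hn
    rw [mem_Ico] at ha hb
    have hn1 := mem_Ioc.mp (hB hnB)
    have hloc := local3 q hq n a b i j U K G (2 * q * G.factorial) ha.1 hb.1 hab hg dvd_rfl
      (by omega) (by
        intro p hp
        rcases hp with rfl | rfl | rfl
        · exact h _ hnB
        · exact h _ hna
        · exact h _ hnb)
    have hsub : Ico (n + a + i - U - 2 * K) (n + a + i - U - 2 * K + K) ⊆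
        S.bipartiteAbove (fun n w => n + i ≤ w + U + 2 * K ∧ w + U ≤ n + K + i) n := by
      intro w hw
      rw [mem_Ico] at hw
      rw [mem_bipartiteAbove]
      refine ⟨?_, by omega, by omega⟩
      rw [hS]
      unfold Sw
      rw [mem_filter, mem_Ico]
      refine ⟨⟨by omega, by omega⟩, ?_⟩
      intro u hu v hv hu1 hv1
      rw [mem_Ico] at hu hv
      exact hloc u v (by omega) (by omega) (by omega) (by omega) (hu1.trans hv1.symm)
    have := card_le_card hsub
    rw [Nat.card_Ico] at this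
    omega
  have hdc := sum_card_bipartiteAbove_eq_sum_card_bipartiteBelow (s := good B K G R) (t := S)
    (fun n w => n + i ≤ w + U + 2 * K ∧ w + U ≤ n + K + i)
  have h1 : (good B K G R).card * K ≤ ∑ n ∈ good B K G R,
      (S.bipartiteAbove (fun n w => n + i ≤ w + U + 2 * K ∧ w + U ≤ n + K + i) n).card := by
    have := card_nsmul_le_sum _ _ _ key
    rwa [nsmul_eq_mul, Nat.cast_id] at this
  have h2 : ∑ w ∈ S, ((good B K G R).bipartiteBelow
      (fun n w => n + i ≤ w + U + 2 * K ∧ w + U ≤ n + K + i) w).card ≤ S.card * (4 * (R + 1)) := by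
    refine le_trans (sum_le_card_nsmul _ _ (4 * (R + 1)) ?_) (by rw [nsmul_eq_mul, Nat.cast_id])
    intro w hw
    rw [hS] at hw
    unfold Sw at hw
    rw [mem_filter, mem_Ico] at hw
    have hgw := good_window B K G R (w + U - K - i) 4 hK
    refine le_trans (card_le_card ?_) hgw
    intro n hn
    rw [mem_bipartiteBelow] at hn
    rw [mem_filter]
    refine ⟨hn.1, ?_, ?_⟩
    · have := hn.2.2
      omega
    · have := hn.2.1
      omega
  rw [hdc] at h1
  calc K * (good B K G R).card = (good B K G R).card * K := by ring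
    _ ≤ _ := h1
    _ ≤ _ := h2

/-- the dyadic theorem. -/
theorem dyadic (q : ℕ) (hq : 2 ≤ q) (η : ℝ) (hη : 0 < η) : ∃ N0 : ℕ, ∀ N : ℕ, N0 ≤ N →
    ∀ i j U K : ℕ, i ≤ N / 8 → U ≤ N / 8 → K = ⌈21 / (10 * η) * Real.log N⌉₊ →
    ∀ B : Finset ℕ, B ⊆ (Ioc N (2 * N)).filter Nat.Prime →
      (∀ p ∈ B, ∃ κ : ℂ, ∀ u ∈ Ioc U (U + 2 * K), gz q ((p + i - u) * (p + j + u)) = κ) →
      (B.card : ℝ) ≤ η * N / Real.log N := by
  obtain ⟨τ, hτ, hτ0, N1, htri⟩ := tri_card
  set D : ℝ := 22 / (10 * η) with hD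
  have hD0 : 0 < D := by positivity
  -- `G`
  have hev1 := hτ.eventually (eventually_lt_nhds (b := η / (100 * D ^ 2)) (by positivity))
  obtain ⟨G, hG, hG1⟩ := (hev1.and (eventually_ge_atTop 1)).exists
  -- `R`
  obtain ⟨R0, hR0⟩ := exists_nat_ge (100 * τ 1 * D ^ 2 / η)
  set R : ℕ := R0 + 1 with hR
  have hR1 : 1 ≤ R := by omega
  have hRr : (0 : ℝ) < R := by exact_mod_cast hR1
  have hR2 : 100 * τ 1 * D ^ 2 / η ≤ R := by
    rw [hR]
    push_cast
    linarith
  set W : ℕ := 2 * q * G.factorial with hW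
  have hW0 : 0 < W := by
    have := G.factorial_pos
    positivity
  set ε : ℝ := 1 / (1000 * (R + 1)) with hε
  have hε0 : 0 < ε := by positivity
  obtain ⟨T, hT1, N2, hN2⟩ := Sw_card q hq W hW0 ε hε0
  -- large `N`
  have hl : Tendsto (fun N : ℕ => Real.log (N : ℝ)) atTop atTop :=
    Real.tendsto_log_atTop.comp tendsto_natCast_atTop_atTop
  have hl2 : Tendsto (fun N : ℕ => Real.log (N : ℝ) / (N : ℝ)) atTop (𝓝 0) := by
    have h1 := Real.isLittleO_log_id_atTop.tendsto_div_nhds_zero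
    exact h1.comp tendsto_natCast_atTop_atTop
  have e1 := hl.eventually (eventually_ge_atTop (10 * η))
  have e2 := hl.eventually (eventually_ge_atTop (T * (10 * η)))
  have e3 := hl2.eventually (eventually_lt_nhds (b := 1 / (16 * D)) (by positivity))
  have e4 := hl2.eventually (eventually_lt_nhds (b := η / 800) (by positivity))
  have e5 := hl.eventually (eventually_ge_atTop 1)
  obtain ⟨N3, hN3⟩ := eventually_atTop.mp (e1.and (e2.and (e3.and (e4.and e5))))
  refine ⟨max (max N1 N2) (max N3 16), fun N hN => ?_⟩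
  have hNa : N1 ≤ N := ((le_max_left _ _).trans (le_max_left _ _)).trans hN
  have hNb : N2 ≤ N := ((le_max_right _ _).trans (le_max_left _ _)).trans hN
  have hNc : N3 ≤ N := ((le_max_left _ _).trans (le_max_right _ _)).trans hN
  have hNd : 16 ≤ N := ((le_max_right _ _).trans (le_max_right _ _)).trans hN
  obtain ⟨f1, f2, f3, f4, f5⟩ := hN3 N hNc
  intro i j U K hi hU hK B hB h
  have hNr : (0 : ℝ) < N := by exact_mod_cast (by omega : 0 < N)
  set l : ℝ := Real.log N with hl'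
  have hl0 : 0 < l := by linarith
  have hKlo : 21 / (10 * η) * l ≤ K := by
    rw [hK]
    exact Nat.le_ceil _
  have hK0r : (0 : ℝ) < K := lt_of_lt_of_le (by positivity) hKlo
  have hK1 : 1 ≤ K := by exact_mod_cast hK0r
  have hKup : (K : ℝ) ≤ D * l := by
    have h1 : (K : ℝ) < 21 / (10 * η) * l + 1 := by
      rw [hK]
      exact Nat.ceil_lt_add_one (by positivity)
    have h2 : 1 ≤ 1 / (10 * η) * l := by
      rw [one_div, inv_mul_eq_div, le_div_iff₀ (by positivity)]
      linarith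
    have h3 : D * l = 21 / (10 * η) * l + 1 / (10 * η) * l := by
      rw [hD]
      field_simp
      ring
    linarith
  have hTK : T ≤ K := by
    have h1 : (T : ℝ) ≤ K := by
      have h2 : (T : ℝ) ≤ 1 / (10 * η) * l := by
        rw [one_div, inv_mul_eq_div, le_div_iff₀ (by positivity)]
        exact f2
      have h3 : 1 / (10 * η) * l ≤ 21 / (10 * η) * l := by
        gcongr
        norm_num
      linarith
    exact_mod_cast h1
  have hKN : 16 * K ≤ N := by
    have h1 : 16 * (K : ℝ) ≤ N := by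
      rw [div_lt_div_iff₀ hNr (by positivity)] at f3
      nlinarith
    exact_mod_cast h1
  have hB' : B ⊆ Ioc N (2 * N) := hB.trans (filter_subset _ _)
  by_contra hcon
  rw [not_le] at hcon
  set M : ℝ := η * N / l with hM
  have hM0 : 0 < M := by positivity
  have g0 := good_card N K G R hK1 hR1 B hB
  have g1 : (N : ℝ) / K ≤ 10 / 21 * M := by
    rw [div_le_iff₀ hK0r, hM]
    have h1 : 10 / 21 * (η * N / l) * (21 / (10 * η) * l) = N := by
      field_simp
    calc (N : ℝ) = 10 / 21 * (η * N / l) * (21 / (10 * η) * l) := h1.symm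
      _ ≤ 10 / 21 * (η * N / l) * K := by gcongr
  have htr : ∀ G', 1 ≤ G' → ((tri N K G').card : ℝ) ≤ τ G' * (D ^ 2 / η) * M := by
    intro G' hG'
    refine (htri N hNa K G' hG').trans ?_
    have h1 : τ G' * (D ^ 2 / η) * M = τ G' * (D * l) ^ 2 * N / l ^ 3 := by
      rw [hM]
      field_simp
    rw [h1]
    have := hτ0 G'
    gcongr
  have g2 : ((tri N K G).card : ℝ) ≤ M / 100 := by
    refine (htr G hG1).trans ?_
    have h1 : τ G * (D ^ 2 / η) ≤ 1 / 100 := by
      have h2 : η / (100 * D ^ 2) * (D ^ 2 / η) = 1 / 100 := by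
        field_simp
      rw [← h2]
      gcongr
    calc τ G * (D ^ 2 / η) * M ≤ 1 / 100 * M := by gcongr
      _ = _ := by ring
  have g3 : ((tri N K 1).card : ℝ) / R ≤ M / 100 := by
    rw [div_le_iff₀ hRr]
    refine (htr 1 le_rfl).trans ?_
    have h1 : τ 1 * (D ^ 2 / η) ≤ R / 100 := by
      have h2 : τ 1 * (D ^ 2 / η) = (100 * τ 1 * D ^ 2 / η) / 100 := by ring
      rw [h2]
      gcongr
    calc τ 1 * (D ^ 2 / η) * M ≤ R / 100 * M := by gcongr
      _ = _ := by ring
  have g4 : 800 ≤ M := by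
    rw [div_lt_div_iff₀ hNr (by norm_num)] at f4
    rw [hM, le_div_iff₀ hl0]
    linarith
  have g5 := good_double q hq N K G R T i j U hi hU hK1 hKN hTK B hB' h
  have g6 := hN2 N hNb
  have g7 : (K : ℝ) * (good B K G R).card ≤ (Sw q W T N).card * (4 * (R + 1)) := by
    exact_mod_cast g5
  have g8 : (K : ℝ) * (good B K G R).card ≤ 16 / 1000 * N := by
    refine g7.trans ?_
    have h1 : (4 * ε * N) * (4 * (R + 1)) = 16 / 1000 * N := by
      rw [hε]
      field_simp
      ring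
    rw [← h1]
    gcongr
  have g9 : ((good B K G R).card : ℝ) ≤ 16 / 1000 * (10 / 21 * M) := by
    have h1 : ((good B K G R).card : ℝ) ≤ 16 / 1000 * (N / K) := by
      rw [mul_div_assoc', le_div_iff₀ hK0r]
      linarith
    linarith
  linarith

end Pool.Agent.Brc
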