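import Pool.Agent.Brc.Dy

set_option autoImplicit false

/-!
# From dyadic ranges to all primes up to `X`
-/

open Finset Filter Topology

namespace Pool.Agent.Brc

open Pool.Agent.MR Pool.Agent.MRE

/-- for each `s`, at least `k` integers `m` with `Ω(m) mod q ≠ s` in the window of length
`C (log p)²` below `(p + i)(p + j)`. -/
def Rich (q k : ℕ) (C : ℝ) (i j p : ℕ) : Prop :=
  ∀ s : ℕ, k ≤ ((range ((p + i) * (p + j))).filter (fun m : ℕ =>
    (((p + i) * (p + j) : ℕ) : ℝ) - C * (Real.log p) ^ 2 < m ∧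
      ArithmeticFunction.cardFactors m % q ≠ s)).card

theorem prod_id (p i j u : ℕ) (hij : i ≤ j) (hu : u ≤ p) :
    (p + i - u) * (p + j + u) + u * ((j - i) + u) = (p + i) * (p + j) := by
  obtain ⟨d, rfl⟩ := Nat.exists_eq_add_of_le hij
  obtain ⟨e, he⟩ := Nat.exists_eq_add_of_le (show u ≤ p + i by omega)
  have h1 : p + i - u = e := by omega
  have h2 : i + d - i = d := by omega
  have h3 : p + (i + d) = u + e + d := by omega
  rw [h1, h2, he, h3]
  ring

/-- a prime which is not rich has a constant window. -/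
theorem not_rich (q k : ℕ) (hq : 2 ≤ q) (C : ℝ) (i j p K : ℕ) (hij : i ≤ j)
    (hlen : ((2 * k * K : ℕ) : ℝ) * ((j - i : ℕ) + (2 * k * K : ℕ)) < C * (Real.log p) ^ 2)
    (hp : 2 * k * K < p) (h : ¬ Rich q k C i j p) :
    ∃ r < k, ∃ κ : ℂ, ∀ u ∈ Ioc (2 * K * r) (2 * K * r + 2 * K),
      gz q ((p + i - u) * (p + j + u)) = κ := by
  classical
  by_contra hcon
  push Not at hcon
  apply h
  intro s
  -- in each window there is an `u` with a value different from `s`
  have hex : ∀ r < k, ∃ u ∈ Ioc (2 * K * r) (2 * K * r + 2 * K),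
      ArithmeticFunction.cardFactors ((p + i - u) * (p + j + u)) % q ≠ s := by
    intro r hr
    by_contra hc
    push Not at hc
    obtain ⟨u, hu, hu2⟩ := hcon r hr (Complex.exp (2 * Real.pi * Complex.I / q) ^ s)
    apply hu2
    have := hc u hu
    unfold gz
    rw [z_eq_iff q hq]
    rw [← this]
    exact (Nat.mod_modEq _ _).symm
  choose! v hv hv2 using hex
  have hvp : ∀ r < k, 1 ≤ v r ∧ v r ≤ 2 * k * K ∧ 2 * K * r < v r ∧ v r ≤ 2 * K * r + 2 * K := by
    intro r hr
    have h1 := mem_Ioc.mp (hv r hr)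
    have h2 : 2 * K * r + 2 * K ≤ 2 * k * K := by
      calc 2 * K * r + 2 * K = 2 * (r + 1) * K := by ring
        _ ≤ 2 * k * K := by gcongr; omega
    omega
  have hstrict : ∀ u u' : ℕ, u ≤ 2 * k * K → u' ≤ 2 * k * K → u < u' →
      (p + i - u') * (p + j + u') < (p + i - u) * (p + j + u) := by
    intro u u' hu hu' huu
    have h1 := prod_id p i j u hij (by omega)
    have h2 := prod_id p i j u' hij (by omega)
    have h3 : u * ((j - i) + u) < u' * ((j - i) + u') := by
      have : u * ((j - i) + u) ≤ u * ((j - i) + u') := by gcongr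
      have h4 : u * ((j - i) + u') < u' * ((j - i) + u') :=
        Nat.mul_lt_mul_of_pos_right huu (by omega)
      omega
    omega
  have hinj : Set.InjOn (fun r => (p + i - v r) * (p + j + v r)) (range k : Set ℕ) := by
    intro r hr r' hr' heq
    rw [coe_range, Set.mem_Iio] at hr hr'
    simp only at heq
    obtain ⟨a1, a2, a3, a4⟩ := hvp r hr
    obtain ⟨b1, b2, b3, b4⟩ := hvp r' hr'
    rcases lt_trichotomy r r' with hlt | heq' | hlt
    · exfalso
      have h1 : 2 * K * r + 2 * K ≤ 2 * K * r' := by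
        calc 2 * K * r + 2 * K = 2 * K * (r + 1) := by ring
          _ ≤ 2 * K * r' := by gcongr; omega
      have := hstrict (v r) (v r') a2 b2 (by omega)
      omega
    · exact heq'
    · exfalso
      have h1 : 2 * K * r' + 2 * K ≤ 2 * K * r := by
        calc 2 * K * r' + 2 * K = 2 * K * (r' + 1) := by ring
          _ ≤ 2 * K * r := by gcongr; omega
      have := hstrict (v r') (v r) b2 a2 (by omega)
      omega
  have hsub : (range k).image (fun r => (p + i - v r) * (p + j + v r)) ⊆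
      (range ((p + i) * (p + j))).filter (fun m : ℕ =>
    (((p + i) * (p + j) : ℕ) : ℝ) - C * (Real.log p) ^ 2 < m ∧
      ArithmeticFunction.cardFactors m % q ≠ s) := by
    intro m hm
    rw [mem_image] at hm
    obtain ⟨r, hr, rfl⟩ := hm
    rw [mem_range] at hr
    obtain ⟨a1, a2, a3, a4⟩ := hvp r hr
    have h1 := prod_id p i j (v r) hij (by omega)
    have h2 : 0 < v r * ((j - i) + v r) := by positivity
    rw [mem_filter, mem_range]
    refine ⟨by omega, ?_, hv2 r hr⟩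
    have h3 : (((p + i - v r) * (p + j + v r) : ℕ) : ℝ) + (v r * ((j - i) + v r) : ℕ) =
        (((p + i) * (p + j) : ℕ) : ℝ) := by
      exact_mod_cast h1
    have h4 : ((v r * ((j - i) + v r) : ℕ) : ℝ) ≤
        ((2 * k * K : ℕ) : ℝ) * ((j - i : ℕ) + (2 * k * K : ℕ)) := by
      have : v r * ((j - i) + v r) ≤ (2 * k * K) * ((j - i) + 2 * k * K) := by gcongr
      exact_mod_cast this
    linarith
  have := card_le_card hsub
  rwa [card_image_of_injOn hinj, card_range] at this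

/-- the dyadic count of primes which are not rich. -/
theorem dyadic_rich (q k : ℕ) (hq : 2 ≤ q) (hk : 1 ≤ k) (η T : ℝ) (hη : 0 < η) (hT : 0 ≤ T) :
    ∃ X0 : ℕ, ∀ X : ℕ, X0 ≤ X → ∀ i j N : ℕ, i ≤ j → (j : ℝ) ≤ T * Real.log X →
      (X : ℝ) ^ (9 / 10 : ℝ) / 3 ≤ N → ∀ B : Finset ℕ, (∀ p ∈ B, N < p ∧ p ≤ 2 * N ∧ p.Prime ∧
        (X : ℝ) ^ (9 / 10 : ℝ) < p ∧ ¬ Rich q k ((5 * k ^ 2 / η + T) ^ 2) i j p) →
      (B.card : ℝ) ≤ (22 / 25 * η) * N / Real.log N := by
  classical
  have hk0 : (0 : ℝ) < k := by exact_mod_cast hk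
  have hk1 : (1 : ℝ) ≤ k := by exact_mod_cast hk
  set η' : ℝ := 22 / 25 * η / k with hη'
  have hη'0 : 0 < η' := by positivity
  obtain ⟨N1, hN1⟩ := dyadic q hq η' hη'0
  set c : ℝ := 21 / (10 * η') with hc
  have hc0 : 0 < c := by positivity
  have hck : c = 525 / 220 * k / η := by
    rw [hc, hη']
    field_simp
    norm_num
  have hl : Tendsto (fun N : ℕ => Real.log (N : ℝ)) atTop atTop :=
    Real.tendsto_log_atTop.comp tendsto_natCast_atTop_atTop
  have hl2 : Tendsto (fun N : ℕ => Real.log (N : ℝ) / (N : ℝ)) atTop (𝓝 0) := by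
    have h1 := Real.isLittleO_log_id_atTop.tendsto_div_nhds_zero
    exact h1.comp tendsto_natCast_atTop_atTop
  have e1 := hl.eventually (eventually_ge_atTop (100 * η))
  have e2 := hl2.eventually (eventually_lt_nhds (b := 1 / (16 * k * (c + 1))) (by positivity))
  have e3 := hl.eventually (eventually_ge_atTop 1)
  obtain ⟨N2, hN2⟩ := eventually_atTop.mp (e1.and (e2.and (e3.and (eventually_ge_atTop (max N1 2)))))
  -- conditions on `X`
  have hY : Tendsto (fun X : ℕ => (X : ℝ) ^ (9 / 10 : ℝ) / 3) atTop atTop :=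
    ((tendsto_rpow_atTop (by norm_num)).comp tendsto_natCast_atTop_atTop).atTop_div_const
      (by norm_num)
  have hYl : Tendsto (fun X : ℕ => Real.log (X : ℝ) / (X : ℝ) ^ (9 / 10 : ℝ)) atTop (𝓝 0) := by
    have h1 := (isLittleO_log_rpow_atTop (r := 9 / 10) (by norm_num)).tendsto_div_nhds_zero
    exact h1.comp tendsto_natCast_atTop_atTop
  have e4 := hY.eventually (eventually_ge_atTop (N2 : ℝ))
  have e5 := hYl.eventually (eventually_lt_nhds (b := 1 / (24 * (T + 1))) (by positivity))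
  obtain ⟨X1, hX1⟩ := eventually_atTop.mp (e4.and (e5.and (eventually_ge_atTop 2)))
  refine ⟨X1, fun X hX i j N hij hj hN B hB => ?_⟩
  obtain ⟨f1, f2, f3⟩ := hX1 X hX
  have hNN : N2 ≤ N := by
    have : (N2 : ℝ) ≤ N := f1.trans hN
    exact_mod_cast this
  obtain ⟨g1, g2, g3, g4⟩ := hN2 N hNN
  have g5 : N1 ≤ N := (le_max_left _ _).trans g4
  have g6 : 2 ≤ N := (le_max_right _ _).trans g4
  have hNr : (0 : ℝ) < N := by exact_mod_cast (by omega : 0 < N)
  set l : ℝ := Real.log N with hl'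
  have hl0 : 0 < l := by linarith
  have hXr : (1 : ℝ) < X := by exact_mod_cast (by omega : 1 < X)
  have hX0 : (0 : ℝ) < X := by linarith
  have hlX : 0 < Real.log X := Real.log_pos hXr
  have hYp : 0 < (X : ℝ) ^ (9 / 10 : ℝ) := by positivity
  set K : ℕ := ⌈c * l⌉₊ with hK
  have hKup : (K : ℝ) ≤ c * l + 1 := (Nat.ceil_lt_add_one (by positivity)).le
  have hkK : 16 * k * (K : ℝ) ≤ N := by
    rw [div_lt_div_iff₀ hNr (by positivity)] at g2
    have h1 : (K : ℝ) ≤ (c + 1) * l := by nlinarith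
    calc 16 * k * (K : ℝ) ≤ 16 * k * ((c + 1) * l) := by gcongr
      _ = l * (16 * k * (c + 1)) := by ring
      _ ≤ 1 * N := g2.le
      _ = N := one_mul _
  have hkK' : 16 * k * K ≤ N := by exact_mod_cast hkK
  have hjN : (j : ℝ) ≤ N / 8 := by
    rw [div_lt_div_iff₀ hYp (by positivity)] at f2
    have h1 : T * Real.log X ≤ (T + 1) * Real.log X := by
      gcongr
      linarith
    have h2 : 24 * ((T + 1) * Real.log X) ≤ (X : ℝ) ^ (9 / 10 : ℝ) := by linarith
    linarith
  have hjN' : j ≤ N / 8 := by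
    rw [Nat.le_div_iff_mul_le (by norm_num)]
    have : (j : ℝ) * 8 ≤ N := by linarith
    exact_mod_cast this
  -- the pieces
  have hpiece : ∀ r ∈ range k, ((B.filter (fun p => ∃ κ : ℂ, ∀ u ∈ Ioc (2 * K * r) (2 * K * r + 2 * K),
      gz q ((p + i - u) * (p + j + u)) = κ)).card : ℝ) ≤ η' * N / l := by
    intro r hr
    rw [mem_range] at hr
    apply hN1 N g5 i j (2 * K * r) K (hij.trans hjN') ?_ rfl
    · intro p hp
      rw [mem_filter] at hp
      obtain ⟨h1, h2, h3, -, -⟩ := hB p hp.1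
      rw [mem_filter, mem_Ioc]
      exact ⟨⟨h1, h2⟩, h3⟩
    · intro p hp
      rw [mem_filter] at hp
      exact hp.2
    · rw [Nat.le_div_iff_mul_le (by norm_num)]
      calc 2 * K * r * 8 = 16 * r * K := by ring
        _ ≤ 16 * k * K := by gcongr
        _ ≤ N := hkK'
  have hcover : B ⊆ (range k).biUnion (fun r => B.filter (fun p => ∃ κ : ℂ,
      ∀ u ∈ Ioc (2 * K * r) (2 * K * r + 2 * K), gz q ((p + i - u) * (p + j + u)) = κ)) := by
    intro p hp
    obtain ⟨h1, h2, h3, h4, h5⟩ := hB p hp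
    have hpr : (N : ℝ) < p := by exact_mod_cast h1
    have hp0 : (0 : ℝ) < p := by linarith
    set P : ℝ := Real.log p with hP
    have hlP : l ≤ P := Real.log_le_log hNr hpr.le
    have hP0 : 0 < P := by linarith
    have hXP : Real.log X ≤ 10 / 9 * P := by
      have := Real.log_le_log hYp h4.le
      rw [Real.log_rpow hX0] at this
      linarith
    have hlen : ((2 * k * K : ℕ) : ℝ) * ((j - i : ℕ) + (2 * k * K : ℕ)) <
        (5 * k ^ 2 / η + T) ^ 2 * P ^ 2 := by
      have a1 : ((2 * k * K : ℕ) : ℝ) ≤ 48 / 10 * k ^ 2 / η * P := by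
        push_cast
        have b1 : 2 * (k : ℝ) * K ≤ 2 * k * (c * l + 1) := by gcongr
        have b2 : 2 * (k : ℝ) * (c * l + 1) ≤ 2 * k * (c * P + 1) := by gcongr
        have b3 : 2 * (k : ℝ) ≤ 1 / 50 * k ^ 2 / η * P := by
          have b4 : 2 * (k : ℝ) ≤ 1 / 50 * k ^ 2 / η * (100 * η) := by
            have : 1 / 50 * (k : ℝ) ^ 2 / η * (100 * η) = 2 * k * k := by field_simp; norm_num
            rw [this]
            nlinarith
          refine b4.trans ?_
          have b5 : 100 * η ≤ P := g1.trans hlP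
          gcongr
        have b6 : 2 * (k : ℝ) * (c * P + 1) = 1050 / 220 * k ^ 2 / η * P + 2 * k := by
          rw [hck]
          field_simp
          ring
        have b7 : 1050 / 220 * (k : ℝ) ^ 2 / η * P + 1 / 50 * k ^ 2 / η * P ≤
            48 / 10 * k ^ 2 / η * P := by
          have : 0 ≤ (k : ℝ) ^ 2 / η * P := by positivity
          have c1 : 1050 / 220 * (k : ℝ) ^ 2 / η * P = 1050 / 220 * ((k : ℝ) ^ 2 / η * P) := by ring
          have c2 : 1 / 50 * (k : ℝ) ^ 2 / η * P = 1 / 50 * ((k : ℝ) ^ 2 / η * P) := by ring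
          have c3 : 48 / 10 * (k : ℝ) ^ 2 / η * P = 48 / 10 * ((k : ℝ) ^ 2 / η * P) := by ring
          rw [c1, c2, c3]
          linarith
        linarith
      have a2 : ((j - i : ℕ) : ℝ) ≤ 10 / 9 * T * P := by
        have b1 : ((j - i : ℕ) : ℝ) ≤ j := by exact_mod_cast Nat.sub_le j i
        have b2 : T * Real.log X ≤ T * (10 / 9 * P) := by gcongr
        linarith
      set x : ℝ := k ^ 2 / η with hx
      have hx0 : 0 < x := by positivity
      have a3 : 48 / 10 * (k : ℝ) ^ 2 / η * P = 48 / 10 * x * P := by rw [hx]; ring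
      have a4 : 5 * (k : ℝ) ^ 2 / η = 5 * x := by rw [hx]; ring
      rw [a3] at a1
      rw [a4]
      calc ((2 * k * K : ℕ) : ℝ) * ((j - i : ℕ) + (2 * k * K : ℕ))
          ≤ (48 / 10 * x * P) * (10 / 9 * T * P + 48 / 10 * x * P) := by gcongr
        _ = (48 / 10 * x * (10 / 9 * T) + (48 / 10 * x) ^ 2) * P ^ 2 := by ring
        _ < (5 * x + T) ^ 2 * P ^ 2 := by
            apply mul_lt_mul_of_pos_right _ (by positivity)
            nlinarith [mul_nonneg hx0.le hT, sq_nonneg T, mul_pos hx0 hx0]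
    have h6 : 2 * k * K < p := by
      have : 2 * k * K ≤ 16 * k * K := by gcongr; omega
      omega
    obtain ⟨r, hr, κ, hκ⟩ := not_rich q k hq _ i j p K hij hlen h6 h5
    rw [mem_biUnion]
    refine ⟨r, mem_range.mpr hr, ?_⟩
    rw [mem_filter]
    exact ⟨hp, κ, hκ⟩
  have h1 : (B.card : ℝ) ≤ ∑ r ∈ range k, ((B.filter (fun p => ∃ κ : ℂ,
      ∀ u ∈ Ioc (2 * K * r) (2 * K * r + 2 * K), gz q ((p + i - u) * (p + j + u)) = κ)).card : ℝ) := by
    exact_mod_cast (card_le_card hcover).trans card_biUnion_le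
  refine h1.trans ((sum_le_sum hpiece).trans (le_of_eq ?_))
  rw [sum_const, card_range, nsmul_eq_mul, hη']
  field_simp

/-- all scales above `X^(9/10)`. -/
theorem scales (q k : ℕ) (hq : 2 ≤ q) (hk : 1 ≤ k) (η T : ℝ) (hη : 0 < η) (hT : 0 ≤ T) :
    ∃ X0 : ℕ, ∀ X : ℕ, X0 ≤ X → ∀ i j : ℕ, i ≤ j → (j : ℝ) ≤ T * Real.log X →
      ∀ M : ℕ, ∀ B : Finset ℕ, (∀ p ∈ B, p ≤ M ∧ p.Prime ∧
        (X : ℝ) ^ (9 / 10 : ℝ) < p ∧ ¬ Rich q k ((5 * k ^ 2 / η + T) ^ 2) i j p) →
      (B.card : ℝ) ≤ (22 / 25 * η) * M / Real.log ((X : ℝ) ^ (9 / 10 : ℝ) / 3) +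
        (Nat.log 2 M + 1) := by
  classical
  obtain ⟨X1, hX1⟩ := dyadic_rich q k hq hk η T hη hT
  have hY : Tendsto (fun X : ℕ => (X : ℝ) ^ (9 / 10 : ℝ)) atTop atTop :=
    ((tendsto_rpow_atTop (by norm_num)).comp tendsto_natCast_atTop_atTop)
  obtain ⟨X2, hX2⟩ := eventually_atTop.mp (hY.eventually (eventually_ge_atTop 9))
  refine ⟨max X1 X2, fun X hX i j hij hj => ?_⟩
  have hXa : X1 ≤ X := (le_max_left _ _).trans hX
  have hXb : X2 ≤ X := (le_max_right _ _).trans hX
  have h9 := hX2 X hXb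
  have hdy := hX1 X hXa i j
  set Y : ℝ := (X : ℝ) ^ (9 / 10 : ℝ) with hYd
  have hlY : 0 < Real.log (Y / 3) := Real.log_pos (by linarith)
  intro M
  induction M using Nat.strong_induction_on with
  | _ M ih =>
    intro B hB
    rcases le_or_gt (M : ℝ) Y with hMY | hMY
    · have hBe : B = ∅ := by
        rw [eq_empty_iff_forall_notMem]
        intro p hp
        obtain ⟨h1, -, h3, -⟩ := hB p hp
        have : (p : ℝ) ≤ M := by exact_mod_cast h1
        linarith
      rw [hBe, card_empty]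
      push_cast
      positivity
    · set N : ℕ := M / 2 with hN
      have hM9 : 9 < M := by
        have : (9 : ℝ) < M := by linarith
        exact_mod_cast this
      have hM2 : M ≤ 2 * N + 1 := by omega
      have hM2' : 2 * N ≤ M := by omega
      have hNY : Y / 3 ≤ N := by
        have : (M : ℝ) ≤ 2 * N + 1 := by exact_mod_cast hM2
        linarith
      have hNr : (0 : ℝ) < N := by linarith
      have hB1 := ih N (by omega) (B.filter (fun p => p ≤ N)) (by
        intro p hp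
        rw [mem_filter] at hp
        obtain ⟨h1, h2, h3, h4⟩ := hB p hp.1
        exact ⟨hp.2, h2, h3, h4⟩)
      have hB2 := hdy N hij hj hNY (B.filter (fun p => N < p ∧ p ≤ 2 * N)) (by
        intro p hp
        rw [mem_filter] at hp
        obtain ⟨h1, h2, h3, h4⟩ := hB p hp.1
        exact ⟨hp.2.1, hp.2.2, h2, h3, h4⟩)
      have hB3 : (B.filter (fun p => 2 * N < p)).card ≤ 1 := by
        rw [card_le_one]
        intro a ha b hb
        rw [mem_filter] at ha hb
        have h1 := (hB a ha.1).1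
        have h2 := (hB b hb.1).1
        omega
      have hcov : B ⊆ B.filter (fun p => p ≤ N) ∪ (B.filter (fun p => N < p ∧ p ≤ 2 * N) ∪
          B.filter (fun p => 2 * N < p)) := by
        intro p hp
        rw [mem_union, mem_union, mem_filter, mem_filter, mem_filter]
        rcases le_or_gt p N with h | h
        · exact Or.inl ⟨hp, h⟩
        · rcases le_or_gt p (2 * N) with h' | h'
          · exact Or.inr (Or.inl ⟨hp, h, h'⟩)
          · exact Or.inr (Or.inr ⟨hp, h'⟩)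
      have h1 := card_le_card hcov
      have h2 := card_union_le (B.filter (fun p => p ≤ N)) (B.filter (fun p => N < p ∧ p ≤ 2 * N) ∪
          B.filter (fun p => 2 * N < p))
      have h3 := card_union_le (B.filter (fun p => N < p ∧ p ≤ 2 * N)) (B.filter (fun p => 2 * N < p))
      have h4 : B.card ≤ (B.filter (fun p => p ≤ N)).card +
          ((B.filter (fun p => N < p ∧ p ≤ 2 * N)).card + 1) := by omega
      have h5 : (B.card : ℝ) ≤ (B.filter (fun p => p ≤ N)).card +
          ((B.filter (fun p => N < p ∧ p ≤ 2 * N)).card + 1) := by exact_mod_cast h4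
      have h6 : (22 / 25 * η) * N / Real.log N ≤ (22 / 25 * η) * N / Real.log (Y / 3) := by
        apply div_le_div_of_nonneg_left (by positivity) hlY
        exact Real.log_le_log (by linarith) hNY
      have h7 : (22 / 25 * η) * N / Real.log (Y / 3) + (22 / 25 * η) * N / Real.log (Y / 3) ≤
          (22 / 25 * η) * M / Real.log (Y / 3) := by
        rw [← add_div]
        gcongr
        have : (2 : ℝ) * N ≤ M := by exact_mod_cast hM2'
        nlinarith
      have h8 : Nat.log 2 M = Nat.log 2 N + 1 := by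
        rw [Nat.log_of_one_lt_of_le (by norm_num) (by omega)]
      have h9 : ((Nat.log 2 M : ℕ) : ℝ) = Nat.log 2 N + 1 := by rw [h8]; push_cast; ring
      rw [h9]
      linarith

/-- **Parity at Cramér scale.** -/
theorem main (q k : ℕ) (hq : 2 ≤ q) (hk : 1 ≤ k) (η T : ℝ) (hη : 0 < η) (hT : 0 ≤ T) :
    ∃ X0 : ℕ, ∀ X : ℕ, X0 ≤ X → ∀ i j : ℕ, i ≤ j → (j : ℝ) ≤ T * Real.log X →
      ∀ B : Finset ℕ, (∀ p ∈ B, p ≤ X ∧ p.Prime ∧
        ¬ Rich q k ((5 * k ^ 2 / η + T) ^ 2) i j p) → (B.card : ℝ) ≤ η * X / Real.log X := by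
  classical
  obtain ⟨X1, hX1⟩ := scales q k hq hk η T hη hT
  have hl : Tendsto (fun N : ℕ => Real.log (N : ℝ)) atTop atTop :=
    Real.tendsto_log_atTop.comp tendsto_natCast_atTop_atTop
  have e1 := hl.eventually (eventually_ge_atTop (600 : ℝ))
  have e2 : ∀ᶠ X : ℕ in atTop, (X : ℝ) ^ (9 / 10 : ℝ) + 1 + (2 * Real.log X + 1) ≤
      1 / 50 * η * X / Real.log X := by
    have g1 : ∀ᶠ X : ℕ in atTop, Real.log (X : ℝ) / (X : ℝ) ^ (1 / 20 : ℝ) < 1 := by
      have h1 := (isLittleO_log_rpow_atTop (r := 1 / 20) (by norm_num)).tendsto_div_nhds_zero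
      exact (h1.comp tendsto_natCast_atTop_atTop).eventually (eventually_lt_nhds (by norm_num))
    have g2 : ∀ᶠ X : ℕ in atTop, max (250 / η) 1 ≤ (X : ℝ) ^ (1 / 20 : ℝ) :=
      ((tendsto_rpow_atTop (by norm_num)).comp tendsto_natCast_atTop_atTop).eventually
        (eventually_ge_atTop _)
    filter_upwards [g1, g2, hl.eventually (eventually_ge_atTop (1 : ℝ)), eventually_ge_atTop 2]
      with X h1 h2 h3 h4
    have hXr : (1 : ℝ) < X := by exact_mod_cast (by omega : 1 < X)
    have hX0 : (0 : ℝ) < X := by linarith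
    have hlX : 0 < Real.log X := Real.log_pos hXr
    have ha : 250 / η ≤ (X : ℝ) ^ (1 / 20 : ℝ) := (le_max_left _ _).trans h2
    have hu : 0 < (X : ℝ) ^ (1 / 20 : ℝ) := by positivity
    have hb : Real.log X ≤ (X : ℝ) ^ (1 / 20 : ℝ) := by
      rw [div_lt_one hu] at h1
      exact h1.le
    have hc : (X : ℝ) ^ (1 / 20 : ℝ) ≤ (X : ℝ) ^ (9 / 10 : ℝ) :=
      Real.rpow_le_rpow_of_exponent_le hXr.le (by norm_num)
    have hd : (1 : ℝ) ≤ (X : ℝ) ^ (9 / 10 : ℝ) := Real.one_le_rpow hXr.le (by norm_num)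
    have he : (X : ℝ) ^ (1 / 20 : ℝ) * ((X : ℝ) ^ (1 / 20 : ℝ) * (X : ℝ) ^ (9 / 10 : ℝ)) = X := by
      rw [← Real.rpow_add hX0, ← Real.rpow_add hX0]
      norm_num
    rw [le_div_iff₀ hlX]
    have hf : (X : ℝ) ^ (9 / 10 : ℝ) + 1 + (2 * Real.log X + 1) ≤ 5 * (X : ℝ) ^ (9 / 10 : ℝ) := by
      linarith
    calc ((X : ℝ) ^ (9 / 10 : ℝ) + 1 + (2 * Real.log X + 1)) * Real.log X
        ≤ (5 * (X : ℝ) ^ (9 / 10 : ℝ)) * (X : ℝ) ^ (1 / 20 : ℝ) := by gcongr
      _ = 1 / 50 * η * (250 / η * ((X : ℝ) ^ (1 / 20 : ℝ) * (X : ℝ) ^ (9 / 10 : ℝ))) := by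
          field_simp
          norm_num
      _ ≤ 1 / 50 * η * ((X : ℝ) ^ (1 / 20 : ℝ) * ((X : ℝ) ^ (1 / 20 : ℝ) *
          (X : ℝ) ^ (9 / 10 : ℝ))) := by gcongr
      _ = 1 / 50 * η * X := by rw [he]
  obtain ⟨X2, hX2⟩ := eventually_atTop.mp (e1.and (e2.and (eventually_ge_atTop 2)))
  refine ⟨max X1 X2, fun X hX i j hij hj B hB => ?_⟩
  have hXa : X1 ≤ X := (le_max_left _ _).trans hX
  have hXb : X2 ≤ X := (le_max_right _ _).trans hX
  obtain ⟨f1, f2, f3⟩ := hX2 X hXb
  have hXr : (1 : ℝ) < X := by exact_mod_cast (by omega : 1 < X)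
  have hX0 : (0 : ℝ) < X := by linarith
  have hlX : 0 < Real.log X := Real.log_pos hXr
  have hY0 : 0 < (X : ℝ) ^ (9 / 10 : ℝ) := by positivity
  have hB1 := hX1 X hXa i j hij hj X (B.filter (fun p : ℕ => (X : ℝ) ^ (9 / 10 : ℝ) < p)) (by
    intro p hp
    rw [mem_filter] at hp
    obtain ⟨h1, h2, h3⟩ := hB p hp.1
    exact ⟨h1, h2, hp.2, h3⟩)
  have hB2 : ((B.filter (fun p : ℕ => (p : ℝ) ≤ (X : ℝ) ^ (9 / 10 : ℝ))).card : ℝ) ≤
      (X : ℝ) ^ (9 / 10 : ℝ) + 1 := by
    have h1 : B.filter (fun p : ℕ => (p : ℝ) ≤ (X : ℝ) ^ (9 / 10 : ℝ)) ⊆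
        range (⌊(X : ℝ) ^ (9 / 10 : ℝ)⌋₊ + 1) := by
      intro p hp
      rw [mem_filter] at hp
      rw [mem_range]
      have := Nat.le_floor hp.2
      omega
    have h2 := card_le_card h1
    rw [card_range] at h2
    have h3 : ((B.filter (fun p : ℕ => (p : ℝ) ≤ (X : ℝ) ^ (9 / 10 : ℝ))).card : ℝ) ≤
        ((⌊(X : ℝ) ^ (9 / 10 : ℝ)⌋₊ + 1 : ℕ) : ℝ) := by exact_mod_cast h2
    refine h3.trans ?_
    push_cast
    linarith [Nat.floor_le hY0.le]
  have hcard : (B.card : ℝ) = (B.filter (fun p : ℕ => (X : ℝ) ^ (9 / 10 : ℝ) < p)).card +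
      (B.filter (fun p : ℕ => (p : ℝ) ≤ (X : ℝ) ^ (9 / 10 : ℝ))).card := by
    rw [← card_filter_add_card_filter_not (s := B) (fun p : ℕ => (X : ℝ) ^ (9 / 10 : ℝ) < p)]
    push_cast
    congr 3
    apply filter_congr
    intro p _
    rw [not_lt]
  have hlog : (22 / 25 * η) * X / Real.log ((X : ℝ) ^ (9 / 10 : ℝ) / 3) ≤
      49 / 50 * η * X / Real.log X := by
    rw [Real.log_div hY0.ne' (by norm_num), Real.log_rpow hX0]
    have h3 : Real.log 3 ≤ 11 / 10 := by
      have := Real.log_three_lt_d9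
      linarith
    rw [div_le_div_iff₀ (by linarith) hlX]
    have h4 : 22 / 25 * Real.log X ≤ 49 / 50 * (9 / 10 * Real.log X - Real.log 3) := by linarith
    have h5 : 0 < η * X := by positivity
    calc 22 / 25 * η * X * Real.log X = (η * X) * (22 / 25 * Real.log X) := by ring
      _ ≤ (η * X) * (49 / 50 * (9 / 10 * Real.log X - Real.log 3)) := by gcongr
      _ = _ := by ring
  have hlog2 : ((Nat.log 2 X : ℕ) : ℝ) ≤ 2 * Real.log X := by
    have h1 : ((2 ^ Nat.log 2 X : ℕ) : ℝ) ≤ X := by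
      exact_mod_cast Nat.pow_log_le_self 2 (by omega)
    have h2 := Real.log_le_log (by positivity) h1
    push_cast at h2
    rw [Real.log_pow] at h2
    have h3 := Real.log_two_gt_d9
    nlinarith [Nat.cast_nonneg (α := ℝ) (Nat.log 2 X)]
  have hsum : 49 / 50 * η * X / Real.log X + 1 / 50 * η * X / Real.log X = η * X / Real.log X := by
    rw [← add_div]
    congr 1
    ring
  rw [hcard]
  linarith

end Pool.Agent.Brc
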