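import Pool.Agent.Brc.Defs

set_option autoImplicit false

/-!
# The triple sieve
-/

open Finset

namespace Pool.Agent.Brc

/-- the forbidden classes -/
def sv_Om (a b l : ℕ) : Finset ℕ := {0, (l - a % l) % l, (l - (a + b) % l) % l}

theorem sv_mod {a l n : ℕ} (hl : 0 < l) (h : n % l = (l - a % l) % l) : l ∣ n + a := by
  have h1 : (n + a) % l = 0 := by
    rw [Nat.add_mod, h, Nat.mod_add_mod, Nat.sub_add_cancel (Nat.mod_lt _ hl).le, Nat.mod_self]
  exact Nat.dvd_of_mod_eq_zero h1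

theorem sv_sub {a b l : ℕ} (hl : 0 < l) : sv_Om a b l ⊆ range l := by
  intro x hx
  unfold sv_Om at hx
  simp only [mem_insert, mem_singleton] at hx
  rw [mem_range]
  rcases hx with rfl | rfl | rfl
  · exact hl
  · exact Nat.mod_lt _ hl
  · exact Nat.mod_lt _ hl

theorem sv_card_le (a b l : ℕ) : (sv_Om a b l).card ≤ 3 := card_le_three

theorem sv_card_pos (a b l : ℕ) : 1 ≤ (sv_Om a b l).card :=
  card_pos.2 ⟨0, by unfold sv_Om; simp⟩

theorem sv_zero {a l : ℕ} (hl : 0 < l) (h : 0 = (l - a % l) % l) : l ∣ a := by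
  have h1 := sv_mod (a := a) (n := 0) hl (by rw [Nat.zero_mod]; exact h)
  rwa [zero_add] at h1

theorem sv_card {a b l : ℕ} (hl : 0 < l) (ha : ¬ l ∣ a) (hb : ¬ l ∣ b) (hab : ¬ l ∣ a + b) :
    (sv_Om a b l).card = 3 := by
  unfold sv_Om
  rw [card_eq_three]
  refine ⟨0, (l - a % l) % l, (l - (a + b) % l) % l, ?_, ?_, ?_, rfl⟩
  · intro h
    exact ha (sv_zero hl h)
  · intro h
    exact hab (sv_zero hl h)
  · intro h
    apply hb
    have h1 : l ∣ (l - (a + b) % l) % l + a := sv_mod hl (by rw [Nat.mod_mod]; exact h.symm)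
    have h2 : l ∣ (l - (a + b) % l) % l + (a + b) := sv_mod hl (Nat.mod_mod _ _)
    rw [← add_assoc] at h2
    exact (Nat.dvd_add_right h1).1 h2

/-- the local inequality -/
theorem sv_local {x : ℝ} (h0 : 0 ≤ x) (h1 : x ≤ 1 / 2) :
    1 - 3 * x ≤ (1 - x) ^ 3 ∧ 1 - x ≤ (1 - x) ^ 3 * (1 + 6 * x) := by
  constructor
  · nlinarith [mul_nonneg (mul_nonneg h0 h0) (show 0 ≤ 3 - x by linarith)]
  · have h2 : 0 ≤ x * ((1 - 2 * x) * (4 - 3 * x)) :=
      mul_nonneg h0 (mul_nonneg (by linarith) (by linarith))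
    have h3 : (1 - x) ^ 3 * (1 + 6 * x) = (1 - x) * (1 + x * ((1 - 2 * x) * (4 - 3 * x))) := by ring
    rw [h3]
    nlinarith [mul_nonneg (show 0 ≤ 1 - x by linarith) h2]

noncomputable def sv_G (d l : ℕ) : ℝ := if l ∣ d then 1 + 6 / (l : ℝ) else 1

theorem sv_G_one (d l : ℕ) : 1 ≤ sv_G d l := by
  unfold sv_G
  split_ifs
  · have : 0 ≤ 6 / (l : ℝ) := by positivity
    linarith
  · exact le_rfl

theorem sv_term {a b l : ℕ} (hl : l.Prime) :
    1 - ((sv_Om a b l).card : ℝ) / l ≤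
      (1 - 1 / (l : ℝ)) ^ 3 * (sv_G a l * sv_G b l * sv_G (a + b) l) := by
  have hl2 : (2 : ℝ) ≤ l := by exact_mod_cast hl.two_le
  have hl0 : (0 : ℝ) < l := by linarith
  have hx0 : 0 ≤ 1 / (l : ℝ) := by positivity
  have hx1 : 1 / (l : ℝ) ≤ 1 / 2 := one_div_le_one_div_of_le (by norm_num) hl2
  obtain ⟨k1, k2⟩ := sv_local hx0 hx1
  have g1 := sv_G_one a l
  have g2 := sv_G_one b l
  have g3 := sv_G_one (a + b) l
  have hp : 0 ≤ (1 - 1 / (l : ℝ)) ^ 3 := pow_nonneg (by linarith) 3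
  have h6 : (6 : ℝ) / l = 6 * (1 / l) := by ring
  by_cases h : l ∣ a ∨ l ∣ b ∨ l ∣ a + b
  · have hG : 1 + 6 * (1 / (l : ℝ)) ≤ sv_G a l * sv_G b l * sv_G (a + b) l := by
      have g12 : 1 ≤ sv_G a l * sv_G b l := one_le_mul_of_one_le_of_one_le g1 g2
      have g12a : sv_G a l ≤ sv_G a l * sv_G b l := le_mul_of_one_le_right (by linarith) g2
      have g12b : sv_G b l ≤ sv_G a l * sv_G b l := le_mul_of_one_le_left (by linarith) g1
      have g123 : sv_G a l * sv_G b l ≤ sv_G a l * sv_G b l * sv_G (a + b) l :=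
        le_mul_of_one_le_right (by linarith) g3
      have g123' : sv_G (a + b) l ≤ sv_G a l * sv_G b l * sv_G (a + b) l :=
        le_mul_of_one_le_left (by linarith) g12
      rcases h with h | h | h
      · have e : sv_G a l = 1 + 6 * (1 / (l : ℝ)) := by
          unfold sv_G
          rw [if_pos h, h6]
        linarith
      · have e : sv_G b l = 1 + 6 * (1 / (l : ℝ)) := by
          unfold sv_G
          rw [if_pos h, h6]
        linarith
      · have e : sv_G (a + b) l = 1 + 6 * (1 / (l : ℝ)) := by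
          unfold sv_G
          rw [if_pos h, h6]
        linarith
    have hc : (1 : ℝ) ≤ (sv_Om a b l).card := by exact_mod_cast sv_card_pos a b l
    have h1 : 1 / (l : ℝ) ≤ ((sv_Om a b l).card : ℝ) / l := div_le_div_of_nonneg_right hc hl0.le
    calc 1 - ((sv_Om a b l).card : ℝ) / l ≤ 1 - 1 / (l : ℝ) := by linarith
      _ ≤ (1 - 1 / (l : ℝ)) ^ 3 * (1 + 6 * (1 / (l : ℝ))) := k2
      _ ≤ _ := mul_le_mul_of_nonneg_left hG hp
  · push Not at h
    rw [sv_card hl.pos h.1 h.2.1 h.2.2]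
    unfold sv_G
    rw [if_neg h.1, if_neg h.2.1, if_neg h.2.2]
    have e : ((3 : ℕ) : ℝ) / l = 3 * (1 / l) := by
      push_cast
      ring
    rw [e]
    linarith

theorem sv_one_prod (S : Finset ℕ) (f : ℕ → ℝ) (h : ∀ l, 1 ≤ f l) : 1 ≤ ∏ l ∈ S, f l :=
  prod_induction f (fun x => 1 ≤ x) (fun _ _ => one_le_mul_of_one_le_of_one_le) le_rfl
    (fun l _ => h l)

theorem sv_prodG {d z : ℕ} (hd : d ≠ 0) : ∏ l ∈ NTot.PZ z, sv_G d l ≤ F d := by
  unfold F sv_G
  rw [← prod_filter]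
  have hsub : (NTot.PZ z).filter (fun l => l ∣ d) ⊆ d.primeFactors := by
    intro l hl
    rw [mem_filter, NTot.mem_PZ] at hl
    exact Nat.mem_primeFactors.2 ⟨hl.1.1, hl.2, hd⟩
  rw [← prod_sdiff hsub]
  apply le_mul_of_one_le_left
  · apply prod_nonneg
    intro l _
    positivity
  · exact sv_one_prod _ _ (fun l => by
      have : 0 ≤ 6 / (l : ℝ) := by positivity
      linarith)

theorem sv_F_one (d : ℕ) : 1 ≤ F d := by
  unfold F
  exact sv_one_prod _ _ (fun l => by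
    have : 0 ≤ 6 / (l : ℝ) := by positivity
    linarith)

theorem sv_prod {a b z : ℕ} (ha : 1 ≤ a) (hb : 1 ≤ b) :
    ∏ l ∈ NTot.PZ z, (1 - ((sv_Om a b l).card : ℝ) / l) ≤
      (∏ l ∈ NTot.PZ z, (1 - (1 : ℝ) / l)) ^ 3 * (F a * F b * F (a + b)) := by
  have hpos : ∀ l ∈ NTot.PZ z, 0 ≤ 1 - (1 : ℝ) / l := by
    intro l hl
    have h1 := (NTot.mem_PZ.1 hl).1.two_le
    have h2 : (2 : ℝ) ≤ l := by exact_mod_cast h1
    have : 1 / (l : ℝ) ≤ 1 / 2 := one_div_le_one_div_of_le (by norm_num) h2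
    linarith
  have h0 : ∀ d, ∀ l ∈ NTot.PZ z, 0 ≤ sv_G d l := fun d l _ => by
    have := sv_G_one d l
    linarith
  calc ∏ l ∈ NTot.PZ z, (1 - ((sv_Om a b l).card : ℝ) / l)
      ≤ ∏ l ∈ NTot.PZ z, ((1 - 1 / (l : ℝ)) ^ 3 * (sv_G a l * sv_G b l * sv_G (a + b) l)) := by
        apply prod_le_prod
        · intro l hl
          have hp := (NTot.mem_PZ.1 hl).1
          have h1 : (sv_Om a b l).card ≤ l := by
            have := card_le_card (sv_sub (a := a) (b := b) hp.pos)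
            rwa [card_range] at this
          have h2 : ((sv_Om a b l).card : ℝ) / l ≤ 1 := by
            rw [div_le_one (by exact_mod_cast hp.pos)]
            exact_mod_cast h1
          linarith
        · intro l hl
          exact sv_term (NTot.mem_PZ.1 hl).1
    _ = (∏ l ∈ NTot.PZ z, (1 - (1 : ℝ) / l)) ^ 3 *
        ((∏ l ∈ NTot.PZ z, sv_G a l) * (∏ l ∈ NTot.PZ z, sv_G b l) *
          ∏ l ∈ NTot.PZ z, sv_G (a + b) l) := by
        rw [prod_mul_distrib, prod_mul_distrib, prod_mul_distrib, prod_pow]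
    _ ≤ _ := by
        apply mul_le_mul_of_nonneg_left _ (pow_nonneg (prod_nonneg hpos) 3)
        have e1 := sv_prodG (z := z) (show a ≠ 0 by omega)
        have e2 := sv_prodG (z := z) (show b ≠ 0 by omega)
        have e3 := sv_prodG (z := z) (show a + b ≠ 0 by omega)
        have f1 := sv_F_one a
        have f2 := sv_F_one b
        have p2 : 0 ≤ ∏ l ∈ NTot.PZ z, sv_G b l := prod_nonneg (h0 b)
        have p3 : 0 ≤ ∏ l ∈ NTot.PZ z, sv_G (a + b) l := prod_nonneg (h0 (a + b))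
        exact mul_le_mul (mul_le_mul e1 e2 p2 (by linarith)) e3 p3 (by positivity)

/-- the triple sieve. -/
theorem sieve3 : ∃ C : ℝ, 0 < C ∧ ∃ N0 : ℕ, ∀ N : ℕ, N0 ≤ N → ∀ a b : ℕ, 1 ≤ a → 1 ≤ b →
    (((Ioc N (2 * N)).filter (fun n => n.Prime ∧ (n + a).Prime ∧ (n + a + b).Prime)).card : ℝ) ≤
      C * N / (Real.log N) ^ 3 * (F a * F b * F (a + b)) := by
  obtain ⟨C₀, hC₀, hSL⟩ := NTot.SL
  obtain ⟨C, hC, hM⟩ := NTot.mertens_prod
  refine ⟨4 * C ^ 3 * (6 * C₀) ^ 3, by positivity, ⌈Real.exp (6 * C₀)⌉₊ + 3, ?_⟩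
  intro N hN a b ha hb
  have hN1 : 1 ≤ N := by omega
  have hNpos : (0 : ℝ) < N := by exact_mod_cast hN1
  have hNexp : Real.exp (6 * C₀) ≤ N := by
    have h1 : Real.exp (6 * C₀) ≤ (⌈Real.exp (6 * C₀)⌉₊ : ℝ) := Nat.le_ceil _
    have h2 : ((⌈Real.exp (6 * C₀)⌉₊ : ℕ) : ℝ) ≤ N := by
      exact_mod_cast (by omega : ⌈Real.exp (6 * C₀)⌉₊ ≤ N)
    linarith
  have hlog : 6 * C₀ ≤ Real.log N := by
    rw [Real.le_log_iff_exp_le hNpos]
    exact hNexp
  have hlog0 : 0 < Real.log N := by linarith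
  have hln2 : Real.log 2 ≤ 1 := by
    have := Real.log_two_lt_d9
    linarith
  set y : ℝ := Real.exp (Real.log N / (3 * C₀)) with hy
  set z : ℕ := ⌊y⌋₊ with hz
  have hexpo : 2 ≤ Real.log N / (3 * C₀) := by
    rw [le_div_iff₀ (by positivity)]
    linarith
  have hy2 : 2 ≤ y := by
    have h1 := Real.add_one_le_exp (Real.log N / (3 * C₀))
    linarith
  have hz2 : 2 ≤ z := Nat.le_floor (by exact_mod_cast hy2)
  have hzy : (z : ℝ) ≤ y := Nat.floor_le (by linarith)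
  have hzpos : (0 : ℝ) < z := by exact_mod_cast (by omega : 0 < z)
  have hyz : y / 2 ≤ z := by
    have h1 := Nat.lt_floor_add_one y
    rw [← hz] at h1
    linarith
  have hlogz_le : Real.log z ≤ Real.log N / (3 * C₀) := by
    have h1 := Real.log_le_log hzpos hzy
    rwa [hy, Real.log_exp] at h1
  have hlogz_ge : Real.log N / (6 * C₀) ≤ Real.log z := by
    have h1 := Real.log_le_log (by linarith) hyz
    rw [Real.log_div (by linarith) (by norm_num), hy, Real.log_exp] at h1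
    have h2 : Real.log N / (3 * C₀) = 2 * (Real.log N / (6 * C₀)) := by
      field_simp
      norm_num
    have h3 : 1 ≤ Real.log N / (6 * C₀) := by
      rw [le_div_iff₀ (by positivity)]
      linarith
    linarith
  have hlogz0 : 0 < Real.log z := lt_of_lt_of_le (by positivity) hlogz_ge
  have hcond : C₀ * ((3 : ℕ) : ℝ) * Real.log z ≤ Real.log N := by
    rw [le_div_iff₀ (by positivity)] at hlogz_le
    push_cast
    linarith
  have hzN : z ≤ N := by
    have h1 : (z : ℝ) ≤ N := by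
      rw [← Real.log_le_log_iff hzpos hNpos]
      refine hlogz_le.trans ?_
      rw [div_le_iff₀ (by positivity)]
      nlinarith
    exact_mod_cast h1
  have hS := hSL 3 N N z (sv_Om a b) (by norm_num) hz2 hN1 hcond (fun l hl =>
    ⟨sv_sub (NTot.mem_PZ.1 hl).1.pos, sv_card_le a b l⟩)
  have hsub : (Ioc N (2 * N)).filter (fun n => n.Prime ∧ (n + a).Prime ∧ (n + a + b).Prime) ⊆
      (Ioc N (N + N)).filter (fun n => ∀ l ∈ NTot.PZ z, n % l ∉ sv_Om a b l) := by
    intro n hn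
    rw [mem_filter, mem_Ioc] at hn ⊢
    obtain ⟨⟨hn1, hn2⟩, p1, p2, p3⟩ := hn
    refine ⟨⟨hn1, by omega⟩, ?_⟩
    intro l hl hmem
    obtain ⟨hlp, hlz⟩ := NTot.mem_PZ.1 hl
    unfold sv_Om at hmem
    simp only [mem_insert, mem_singleton] at hmem
    rcases hmem with h | h | h
    · have h1 := Nat.dvd_of_mod_eq_zero h
      have h2 := (Nat.prime_dvd_prime_iff_eq hlp p1).1 h1
      omega
    · have h1 := sv_mod hlp.pos h
      have h2 := (Nat.prime_dvd_prime_iff_eq hlp p2).1 h1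
      omega
    · have h1 := sv_mod hlp.pos h
      rw [← add_assoc] at h1
      have h2 := (Nat.prime_dvd_prime_iff_eq hlp p3).1 h1
      omega
  have hcard : (((Ioc N (2 * N)).filter
      (fun n => n.Prime ∧ (n + a).Prime ∧ (n + a + b).Prime)).card : ℝ) ≤
      (((Ioc N (N + N)).filter (fun n => ∀ l ∈ NTot.PZ z, n % l ∉ sv_Om a b l)).card : ℝ) := by
    exact_mod_cast card_le_card hsub
  have hP := sv_prod (z := z) ha hb
  have hMz := hM z hz2
  have hPpos : 0 ≤ ∏ l ∈ NTot.PZ z, (1 - (1 : ℝ) / l) := by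
    apply prod_nonneg
    intro l hl
    have h1 := (NTot.mem_PZ.1 hl).1.two_le
    have h2 : (2 : ℝ) ≤ l := by exact_mod_cast h1
    have : 1 / (l : ℝ) ≤ 1 / 2 := one_div_le_one_div_of_le (by norm_num) h2
    linarith
  have hFF : 0 ≤ F a * F b * F (a + b) := by
    have f1 := sv_F_one a
    have f2 := sv_F_one b
    have f3 := sv_F_one (a + b)
    positivity
  have hMz3 : (∏ l ∈ NTot.PZ z, (1 - (1 : ℝ) / l)) ^ 3 ≤ (C * (6 * C₀) / Real.log N) ^ 3 := by
    apply pow_le_pow_left₀ hPpos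
    refine hMz.trans ?_
    rw [div_le_div_iff₀ hlogz0 hlog0]
    rw [div_le_iff₀ (by positivity)] at hlogz_ge
    nlinarith
  have hSS : (((Ioc N (N + N)).filter (fun n => ∀ l ∈ NTot.PZ z, n % l ∉ sv_Om a b l)).card : ℝ) ≤
      4 * N * ∏ l ∈ NTot.PZ z, (1 - ((sv_Om a b l).card : ℝ) / l) := by
    convert hS
  calc (((Ioc N (2 * N)).filter
      (fun n => n.Prime ∧ (n + a).Prime ∧ (n + a + b).Prime)).card : ℝ)
      ≤ 4 * N * ∏ l ∈ NTot.PZ z, (1 - ((sv_Om a b l).card : ℝ) / l) := hcard.trans hSS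
    _ ≤ 4 * N * ((∏ l ∈ NTot.PZ z, (1 - (1 : ℝ) / l)) ^ 3 * (F a * F b * F (a + b))) :=
        mul_le_mul_of_nonneg_left hP (by positivity)
    _ ≤ 4 * N * ((C * (6 * C₀) / Real.log N) ^ 3 * (F a * F b * F (a + b))) :=
        mul_le_mul_of_nonneg_left (mul_le_mul_of_nonneg_right hMz3 hFF) (by positivity)
    _ = _ := by
        rw [div_pow, mul_pow]
        ring

end Pool.Agent.Brc
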