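import Pool.Agent.Brc.Sv
import Pool.Agent.Brc.Av

set_option autoImplicit false

/-!
# The number of triples of primes
-/

open Finset Filter Topology

namespace Pool.Agent.Brc

/-- the number of triples of primes in a short window with large gcd of the differences. -/
theorem tri_card : ∃ τ : ℕ → ℝ, Tendsto τ atTop (𝓝 0) ∧ (∀ G, 0 ≤ τ G) ∧ ∃ N0 : ℕ, ∀ N : ℕ,
    N0 ≤ N → ∀ K G : ℕ, 1 ≤ G →
    ((tri N K G).card : ℝ) ≤ τ G * (K : ℝ) ^ 2 * N / (Real.log N) ^ 3 := by
  obtain ⟨C, hC, N0, hs⟩ := sieve3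
  obtain ⟨τ, h1, h2, h3⟩ := av
  refine ⟨fun G => C * τ G, by simpa using h1.const_mul C, fun G => mul_nonneg hC.le (h2 G),
    max N0 3, fun N hN K G hG => ?_⟩
  have hN0 : N0 ≤ N := (le_max_left _ _).trans hN
  have hN3 : 3 ≤ N := (le_max_right _ _).trans hN
  have hcard : (tri N K G).card = ∑ t ∈ prs K G,
      ((Ioc N (2 * N)).filter (fun n => n.Prime ∧ (n + t.1).Prime ∧ (n + t.1 + t.2).Prime)).card := by
    unfold tri
    rw [card_filter, sum_product_right]
    apply sum_congr rfl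
    intro t _
    rw [card_filter]
  have hlog : 0 < Real.log N := Real.log_pos (by exact_mod_cast (by omega : 1 < N))
  rw [hcard]
  push_cast
  calc ∑ t ∈ prs K G,
      (((Ioc N (2 * N)).filter (fun n => n.Prime ∧ (n + t.1).Prime ∧ (n + t.1 + t.2).Prime)).card : ℝ)
      ≤ ∑ t ∈ prs K G, C * N / (Real.log N) ^ 3 * (F t.1 * F t.2 * F (t.1 + t.2)) := by
        apply sum_le_sum
        intro t ht
        unfold prs at ht
        rw [mem_filter, mem_product, mem_Ico, mem_Ico] at ht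
        exact hs N hN0 t.1 t.2 ht.1.1.1 ht.1.2.1
    _ = C * N / (Real.log N) ^ 3 * ∑ t ∈ prs K G, F t.1 * F t.2 * F (t.1 + t.2) := by
        rw [mul_sum]
    _ ≤ C * N / (Real.log N) ^ 3 * (τ G * (K : ℝ) ^ 2) :=
        mul_le_mul_of_nonneg_left (h3 K G hG) (by positivity)
    _ = _ := by ring

end Pool.Agent.Brc
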